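import Pool.Agent.H99.CUBE.BAS2

/-!
# Cube project (MP_47888e_al), block TAME, module BAS
-/

set_option autoImplicit false

open Finset MvPolynomial Pool.CM

namespace Pool.CUBE

open T99

namespace BASm

/-- the exponents which are reduced, of weight divisible by `D` -/
def redSet (n D : ℕ) : Set (Fin (n + 1) →₀ ℕ) :=
  {a | (∀ i, a i < D) ∧ D ∣ a.degree + (n + 1)}

theorem redSet_finite (n D : ℕ) : (redSet n D).Finite := by
  refine Set.Finite.subset (Finset.finite_toSet (Finset.Iic
    (Finsupp.equivFunOnFinite.symm fun _ : Fin (n + 1) => D))) fun a ha => ?_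
  rw [Finset.coe_Iic, Set.mem_Iic, Finsupp.le_def]
  intro i
  exact (ha.1 i).le

theorem weight_le {n D : ℕ} {a : Fin (n + 1) →₀ ℕ} (ha : ∀ i, a i < D) :
    a.degree + (n + 1) ≤ D * (n + 1) := by
  rw [T99.degree_eq]
  have : ∑ i, a i + (n + 1) = ∑ i, (a i + 1) := by
    rw [Finset.sum_add_distrib]; simp
  rw [this]
  calc ∑ i, (a i + 1) ≤ ∑ _i : Fin (n + 1), D := Finset.sum_le_sum fun i _ => ha i
    _ = D * (n + 1) := by simp [mul_comm]

end BASm

open BASm in
theorem BAS_proof (hR : REDStmt) : BASStmt := by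
  classical
  intro F _ _ n D hD P hP hRed
  have hS : Filt (fun _ : ℕ => (⊤ : AddSubgroup F)) :=
    ⟨fun _ _ _ => le_refl _, trivial, fun _ _ _ _ _ _ => trivial⟩
  have hT : ∀ g : Poly n F, CoefIn ⊤ g := fun g a => trivial
  have red : ∀ (m : ℕ) (g : Poly n F), Wt (D * m) g → ∃ r : Poly n F, g - r ∈ Rel P ∧ Rd D r ∧
      WtD D r ∧ (∀ a, coeff a r ≠ 0 → a.degree + (n + 1) ≤ D * m) := by
    intro m g hg
    obtain ⟨h, r, h1, h2, h3, h4, -, -, -⟩ := hR F n D hD P _ hP hS (fun m hm => hRed m hm) m 0 g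
      hg (hT g)
    refine ⟨r, mem_Rel.2 ⟨h, by rw [h1]; ring⟩, h2, h3, h4⟩
  set v : (Fin (n + 1) →₀ ℕ) → VP P := fun a => cls P (monomial a 1) with hv
  have hlr : T99.lowSet n D ⊆ redSet n D := fun a ha => ⟨ha.1, ha.2.1⟩
  obtain ⟨N1, hN11, -, hN12, hN13⟩ := exists_linearIndepOn_extension (K := F) (v := v)
    (s := ∅) (t := T99.lowSet n D) (linearIndepOn_empty _ _) (Set.empty_subset _)
  obtain ⟨N0, hN1, hN10, hN2, hN3⟩ := exists_linearIndepOn_extension (K := F) (v := v)
    (s := N1) (t := redSet n D) hN13 (hN11.trans hlr)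
  have hfin : N0.Finite := (redSet_finite n D).subset hN1
  set N : Finset (Fin (n + 1) →₀ ℕ) := hfin.toFinset with hN
  have hNmem : ∀ a, a ∈ N ↔ a ∈ N0 := fun a => hfin.mem_toFinset
  set w : N → VP P := fun j => v j.1 with hw
  have hrange : Set.range w = v '' N0 := by
    ext x
    constructor
    · rintro ⟨a, rfl⟩
      exact ⟨a.1, (hNmem _).1 a.2, rfl⟩
    · rintro ⟨a, ha, rfl⟩
      exact ⟨⟨a, (hNmem _).2 ha⟩, rfl⟩
  have hli : LinearIndependent F w := by
    have h1 : LinearIndependent F (fun a : N0 => v a.1) := hN3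
    have h2 : w = (fun a : N0 => v a.1) ∘
        (fun a : N => (⟨a.1, (hNmem _).1 a.2⟩ : N0)) := rfl
    rw [h2]
    refine h1.comp _ ?_
    intro a c hac
    exact Subtype.ext (congrArg (fun x : N0 => x.1) hac)
  have hasum : ∀ g : Poly n F, g = ∑ a ∈ g.support, coeff a g • (monomial a 1 : Poly n F) := by
    intro g
    conv_lhs => rw [g.as_sum]
    refine Finset.sum_congr rfl fun a _ => ?_
    rw [smul_monomial, smul_eq_mul, mul_one]
  have hmonWt : ∀ (a : Fin (n + 1) →₀ ℕ) (m : ℕ), a.degree + (n + 1) = m →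
      Wt m (monomial a 1 : Poly n F) := by
    intro a m hm c hc
    rw [coeff_monomial] at hc
    split_ifs at hc with h
    · rw [← h]; exact hm
    · exact absurd rfl hc
  have hspan1 : ∀ r : Poly n F, Rd D r → WtD D r → cls P r ∈ Submodule.span F (Set.range w) := by
    intro r h1 h2
    rw [hrange, hasum r, map_sum]
    refine Submodule.sum_mem _ fun a ha => ?_
    rw [map_smul]
    refine Submodule.smul_mem _ _ ?_
    have ha' := mem_support_iff.1 ha
    exact hN2 ⟨a, ⟨h1 a ha', h2 a ha'⟩, rfl⟩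
  have hcr : ∀ g r : Poly n F, g - r ∈ Rel P → cls P g = cls P r := by
    intro g r h
    rw [← sub_eq_zero, ← map_sub]
    exact (Submodule.Quotient.mk_eq_zero _).2 h
  have hspan : ∀ g : Poly n F, WtD D g → cls P g ∈ Submodule.span F (Set.range w) := by
    intro g hg
    rw [hasum g, map_sum]
    refine Submodule.sum_mem _ fun a ha => ?_
    rw [map_smul]
    refine Submodule.smul_mem _ _ ?_
    obtain ⟨m, hm⟩ := hg a (mem_support_iff.1 ha)
    obtain ⟨r, h1, h2, h3, -⟩ := red m (monomial a 1) (hmonWt a _ hm)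
    rw [hcr _ _ h1]
    exact hspan1 r h2 h3
  -- coordinates
  set L : (N → F) →ₗ[F] VP P := Fintype.linearCombination F w with hL
  have hLker : LinearMap.ker L = ⊥ := by
    rw [LinearMap.ker_eq_bot]
    exact linearIndependent_iff_injective_fintypeLinearCombination.1 hli
  obtain ⟨c, hc⟩ := L.exists_leftInverse_of_injective hLker
  have hc' : ∀ x, c (L x) = x := fun x => by
    have := congrArg (fun f => f x) hc
    simpa using this
  have hcw : ∀ j, c (w j) = Pi.single j 1 := by
    intro j
    have : w j = L (Pi.single j 1) := by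
      rw [hL, Fintype.linearCombination_apply_single, one_smul]
    rw [this, hc']
  have hWt : ∀ j : N, Wt (D * ((j.1.degree + (n + 1)) / D)) (monomial j.1 1 : Poly n F) := by
    intro j
    exact hmonWt _ _ (Nat.mul_div_cancel' (hN1 ((hNmem _).1 j.2)).2).symm
  refine ⟨N, (c.comp (cls P)).comp (piD D), ⟨hWt, ?_, ?_, ?_, ?_, ?_⟩, ?_, ?_⟩
  · intro j
    have h1 := hN1 ((hNmem _).1 j.2)
    constructor
    · exact (Nat.one_le_div_iff hD).2 (Nat.le_of_dvd (by omega) h1.2)
    · change (j.1.degree + (n + 1)) / D ≤ n + 1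
      have : (j.1.degree + (n + 1)) / D ≤ D * (n + 1) / D := Nat.div_le_div_right (weight_le h1.1)
      rwa [Nat.mul_div_cancel_left _ hD] at this
  · intro i g
    rw [LinearMap.comp_apply, LinearMap.comp_apply, piD_Dop hP, cls_Dop, map_zero]
  · intro a ha
    rw [LinearMap.comp_apply, LinearMap.comp_apply, piD_monomial, if_neg ha, map_zero, map_zero]
  · intro j
    rw [LinearMap.comp_apply, LinearMap.comp_apply, piD_of_WtD (WtD_of_Wt (hWt j))]
    exact hcw j
  · intro g hg
    rw [LinearMap.comp_apply, LinearMap.comp_apply, piD_of_WtD hg]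
    have h1 := hspan g hg
    rw [← Fintype.range_linearCombination] at h1
    obtain ⟨x, hx⟩ := h1
    change L x = _ at hx
    rw [← hx, hc', ← Submodule.Quotient.mk_eq_zero, ← Submodule.mkQ_apply, map_sub, ← hx, map_sum,
      hL, Fintype.linearCombination_apply, sub_eq_zero]
    exact Finset.sum_congr rfl fun j _ => (map_smul _ _ _).symm
  · intro a ha
    exact (hN1 ((hNmem _).1 ha)).1
  · intro a ha b hb
    by_contra hcon
    apply hb
    have hbN : b.1 ∉ N1 := fun h => hcon (hN11 h).2.2
    -- elements of the low span have no coordinate at b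
    have hlow : ∀ x ∈ Submodule.span F (v '' N1), c x b = 0 := by
      intro x hx
      induction hx using Submodule.span_induction with
      | mem x hx =>
        obtain ⟨d, hd, rfl⟩ := hx
        have := hcw ⟨d, (hNmem _).2 (hN10 hd)⟩
        change c (v d) = _ at this
        rw [this, Pi.single_apply, if_neg]
        intro h
        apply hbN
        rw [h]
        exact hd
      | zero => rw [map_zero, Pi.zero_apply]
      | add x y _ _ hx hy => rw [map_add, Pi.add_apply, hx, hy, add_zero]
      | smul r x _ hx => rw [map_smul, Pi.smul_apply, hx, smul_zero]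
    by_cases hdv : D ∣ a.degree + (n + 1)
    · obtain ⟨m, hm⟩ := hdv
      rw [LinearMap.comp_apply, LinearMap.comp_apply, piD_of_WtD (fun u hu => ⟨m,
        hmonWt a _ hm u hu⟩)]
      obtain ⟨r, h1, h2, h3, h4⟩ := red m (monomial a 1) (hmonWt a _ hm)
      rw [hcr _ _ h1]
      apply hlow
      rw [hasum r, map_sum]
      refine Submodule.sum_mem _ fun d hd => ?_
      rw [map_smul]
      refine Submodule.smul_mem _ _ ?_
      have hd' := mem_support_iff.1 hd
      refine hN12 ⟨d, ⟨h2 d hd', h3 d hd', ?_⟩, rfl⟩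
      have := h4 d hd'
      omega
    · rw [LinearMap.comp_apply, LinearMap.comp_apply, piD_monomial, if_neg hdv, map_zero,
        map_zero, Pi.zero_apply]

end Pool.CUBE
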