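import Pool.Agent.H46.CUBE.EPW
import Pool.Agent.H99.CUBE.Pre

/-!
# Cube project (MP_47888e_al), block TAME, module ENZ
-/

set_option autoImplicit false
set_option linter.unusedSectionVars false

open Finset MvPolynomial Pool.CM

namespace Pool.CUBE

namespace ENZm

section
variable {n : ℕ} {A : Type} [CommRing A]

theorem lev_zero' (g : Poly n A) : lev 0 g = 0 := by
  induction g using MvPolynomial.induction_on' with
  | monomial a r => rw [lev_monomial, if_neg (by omega)]
  | add g1 g2 h1 h2 => rw [map_add, h1, h2, add_zero]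

theorem ez_isHomogeneous' {D : ℕ} {Q : Poly n A} (hQ : Q.IsHomogeneous D) (i : Fin (n + 1)) :
    (ez i Q).IsHomogeneous D := by
  have : ez i Q = ∑ a ∈ Q.support, monomial a ((a i : A) * coeff a Q) := by
    conv_lhs => rw [Q.as_sum, map_sum]
    exact Finset.sum_congr rfl fun a _ => ez_monomial i a _
  rw [this]
  refine IsHomogeneous.sum _ _ _ fun a ha => ?_
  refine isHomogeneous_monomial _ ?_
  have := hQ (mem_support_iff.1 ha)
  rw [← this, Finsupp.degree_eq_weight_one]
  rfl

end

section
variable {n : ℕ} {E : Type} [Field E] [CharZero E] (D : ℕ) (P0 : Poly n E)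

/-- the functional of the Fermat polynomial -/
noncomputable def jf : Poly n E →ₗ[E] E := open Classical in
  linMon fun b => if ∀ i, D ∣ b i + 1 then ∏ i, ((((b i + 1) / D - 1).factorial : ℕ) : E) else 0

theorem jf_monomial (b : Fin (n + 1) →₀ ℕ) (r : E) : jf D (monomial b r) = open Classical in
    r * (if ∀ i, D ∣ b i + 1 then ∏ i, ((((b i + 1) / D - 1).factorial : ℕ) : E) else 0) := by
  classical
  rw [jf, linMon_monomial, smul_eq_mul]

theorem jf_rel (hD : 0 < D) (i : Fin (n + 1)) (g : Poly n E) :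
    jf D (ez i g + g) = (D : E) * jf D (X i ^ D * g) := by
  classical
  induction g using MvPolynomial.induction_on' with
  | monomial b r =>
    have e1 : ez i (monomial b r) + monomial b r = (monomial b (((b i + 1 : ℕ) : E) * r) :
        Poly n E) := by
      rw [ez_monomial, ← map_add]
      congr 1
      push_cast
      ring
    have e2 : (X i ^ D * monomial b r : Poly n E) = monomial (Finsupp.single i D + b) r := by
      rw [X_pow_eq_monomial, monomial_mul, one_mul]
    rw [e1, e2, jf_monomial, jf_monomial]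
    have hiff : (∀ k, D ∣ (Finsupp.single i D + b) k + 1) ↔ ∀ k, D ∣ b k + 1 := by
      refine forall_congr' fun k => ?_
      rw [Finsupp.add_apply, Finsupp.single_apply]
      split_ifs with h
      · rw [add_assoc]
        exact (Nat.dvd_add_iff_right (dvd_refl D)).symm
      · rw [zero_add]
    by_cases h : ∀ k, D ∣ b k + 1
    · rw [if_pos h, if_pos (hiff.2 h)]
      have h1 : ∏ k, (((((Finsupp.single i D + b) k + 1) / D - 1).factorial : ℕ) : E) =
          (((b i + 1) / D : ℕ) : E) * ∏ k, ((((b k + 1) / D - 1).factorial : ℕ) : E) := by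
        rw [← Finset.mul_prod_erase Finset.univ
          (fun k => (((((Finsupp.single i D + b) k + 1) / D - 1).factorial : ℕ) : E))
            (Finset.mem_univ i), ← Finset.mul_prod_erase Finset.univ
          (fun k => ((((b k + 1) / D - 1).factorial : ℕ) : E))
            (Finset.mem_univ i), ← mul_assoc]
        congr 1
        · have h3 : ((Finsupp.single i D + b) i + 1) / D = (b i + 1) / D + 1 := by
            rw [Finsupp.add_apply, Finsupp.single_eq_same, add_assoc, add_comm,
              Nat.add_div_right _ hD]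
          have h4 : 1 ≤ (b i + 1) / D :=
            (Nat.one_le_div_iff hD).2 (Nat.le_of_dvd (by omega) (h i))
          obtain ⟨q, hq⟩ : ∃ q, (b i + 1) / D = q + 1 := ⟨(b i + 1) / D - 1, by omega⟩
          rw [h3, hq]
          simp only [Nat.add_sub_cancel]
          rw [← Nat.cast_mul, Nat.factorial_succ]
        · refine Finset.prod_congr rfl fun k hk => ?_
          have hki : k ≠ i := Finset.ne_of_mem_erase hk
          rw [Finsupp.add_apply, Finsupp.single_apply, if_neg (Ne.symm hki), zero_add]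
      rw [h1]
      have h2 : ((b i + 1 : ℕ) : E) = (D : E) * (((b i + 1) / D : ℕ) : E) := by
        rw [← Nat.cast_mul, Nat.mul_div_cancel' (h i)]
      rw [h2]
      ring
    · rw [if_neg h, if_neg fun h' => h (hiff.1 h')]
      ring
  | add g1 g2 h1 h2 =>
    have e : ez i (g1 + g2) + (g1 + g2) = (ez i g1 + g1) + (ez i g2 + g2) := by
      rw [map_add]; ring
    rw [e, map_add, h1, h2, mul_add (X i ^ D), map_add, mul_add]

/-- the coefficients `(-1) ^ l / l!` -/
noncomputable def cf (E : Type) [Field E] (l : ℕ) : E := (-1) ^ l / (l.factorial : E)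

theorem cf_succ (l : ℕ) : cf E (l + 1) * ((l + 1 : ℕ) : E) = - cf E l := by
  rw [cf, cf, Nat.factorial_succ]
  have h1 : ((l + 1 : ℕ) : E) ≠ 0 := Nat.cast_ne_zero.2 (Nat.succ_ne_zero l)
  have h2 : (l.factorial : E) ≠ 0 := Nat.cast_ne_zero.2 (Nat.factorial_ne_zero l)
  rw [Nat.cast_mul, pow_succ]
  field_simp

/-- coefficients of the functional `J` -/
noncomputable def JPc (m : ℕ) (g : Poly n E) : E :=
  ∑ l ∈ range (m + 1), cf E l * jf D (P0 ^ l * lev (D * (m - l)) g)

/-- the functional `J` on polynomials over `E` -/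
noncomputable def JP : Poly n E →ₗ[E] PowerSeries E where
  toFun g := PowerSeries.mk fun m => JPc D P0 m g
  map_add' g h := by
    ext m
    rw [map_add, PowerSeries.coeff_mk, PowerSeries.coeff_mk, PowerSeries.coeff_mk, JPc, JPc, JPc,
      ← Finset.sum_add_distrib]
    refine Finset.sum_congr rfl fun l _ => ?_
    rw [map_add, mul_add, map_add, mul_add]
  map_smul' c g := by
    ext m
    rw [RingHom.id_apply, PowerSeries.coeff_smul, PowerSeries.coeff_mk, PowerSeries.coeff_mk, JPc,
      JPc, smul_eq_mul, Finset.mul_sum]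
    refine Finset.sum_congr rfl fun l _ => ?_
    rw [map_smul, mul_smul_comm, map_smul, smul_eq_mul]
    ring

theorem coeff_JP (m : ℕ) (g : Poly n E) :
    PowerSeries.coeff m (JP D P0 g) = JPc D P0 m g := by
  change PowerSeries.coeff m (PowerSeries.mk fun m => JPc D P0 m g) = _
  rw [PowerSeries.coeff_mk]

theorem JP_rel (hD : 0 < D) (hP : P0.IsHomogeneous D) (i : Fin (n + 1)) (g : Poly n E) :
    JP D P0 ((D : E) • (X i ^ D * g)) = PowerSeries.X * JP D P0 (Dop P0 i g) := by
  ext m
  rw [coeff_JP]
  cases m with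
  | zero =>
    rw [PowerSeries.coeff_zero_X_mul, JPc]
    simp [lev_zero']
  | succ m =>
    rw [PowerSeries.coeff_succ_X_mul, coeff_JP, JPc, JPc]
    have hX : (X i ^ D : Poly n E).IsHomogeneous D := by
      have := (isHomogeneous_X E i).pow D
      simpa using this
    -- the left side
    have eL : ∑ l ∈ range (m + 1 + 1), cf E l *
        jf D (P0 ^ l * lev (D * (m + 1 - l)) ((D : E) • (X i ^ D * g))) =
        ∑ l ∈ range (m + 1), cf E l *
          (jf D (P0 ^ l * (ez i (lev (D * (m - l)) g) + lev (D * (m - l)) g)) +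
            (l : E) * jf D (P0 ^ (l - 1) * (ez i P0 * lev (D * (m - l)) g))) := by
      rw [Finset.sum_range_succ]
      have h0 : cf E (m + 1) * jf D (P0 ^ (m + 1) *
          lev (D * (m + 1 - (m + 1))) ((D : E) • (X i ^ D * g))) = 0 := by
        rw [Nat.sub_self, mul_zero, lev_zero', mul_zero, map_zero, mul_zero]
      rw [h0, add_zero]
      refine Finset.sum_congr rfl fun l hl => ?_
      congr 1
      have hl' : l < m + 1 := Finset.mem_range.1 hl
      have e1 : D * (m + 1 - l) = D * (m - l) + D := by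
        rw [show m + 1 - l = (m - l) + 1 by omega]; ring
      rw [map_smul, e1, lev_mul hX, mul_smul_comm, map_smul, smul_eq_mul]
      have e2 : P0 ^ l * (X i ^ D * lev (D * (m - l)) g) =
          X i ^ D * (P0 ^ l * lev (D * (m - l)) g) := by ring
      rw [e2, ← jf_rel D hD]
      have e3 : ez i (P0 ^ l * lev (D * (m - l)) g) + P0 ^ l * lev (D * (m - l)) g =
          P0 ^ l * (ez i (lev (D * (m - l)) g) + lev (D * (m - l)) g) +
          (l : E) • (P0 ^ (l - 1) * (ez i P0 * lev (D * (m - l)) g)) := by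
        rw [Derivation.leibniz, Derivation.leibniz_pow, smul_eq_mul, smul_eq_mul, smul_eq_mul,
          nsmul_eq_mul, smul_eq_C_mul, map_natCast]
        ring
      rw [e3, map_add, map_smul, smul_eq_mul]
    -- the right side
    have eR : ∑ l ∈ range (m + 1), cf E l *
        jf D (P0 ^ l * lev (D * (m - l)) (Dop P0 i g)) =
        ∑ l ∈ range (m + 1), cf E l *
          jf D (P0 ^ l * (ez i (lev (D * (m - l)) g) + lev (D * (m - l)) g)) -
        ∑ l ∈ range m, cf E l * jf D (P0 ^ l * (ez i P0 * lev (D * (m - 1 - l)) g)) := by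
      have h1 : ∀ l, cf E l * jf D (P0 ^ l * lev (D * (m - l)) (Dop P0 i g)) =
          cf E l * jf D (P0 ^ l * (ez i (lev (D * (m - l)) g) + lev (D * (m - l)) g)) -
          cf E l * jf D (P0 ^ l * lev (D * (m - l)) (ez i P0 * g)) := by
        intro l
        rw [Dop_apply, map_sub, map_add, ez_lev, mul_sub (P0 ^ l), map_sub]
        ring
      rw [Finset.sum_congr rfl fun l _ => h1 l, Finset.sum_sub_distrib]
      congr 1
      rw [Finset.sum_range_succ]
      have h0 : cf E m * jf D (P0 ^ m * lev (D * (m - m)) (ez i P0 * g)) = 0 := by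
        rw [Nat.sub_self, mul_zero, lev_zero', mul_zero, map_zero, mul_zero]
      rw [h0, add_zero]
      refine Finset.sum_congr rfl fun l hl => ?_
      have hl' : l < m := Finset.mem_range.1 hl
      have e1 : D * (m - l) = D * (m - 1 - l) + D := by
        rw [show m - l = (m - 1 - l) + 1 by omega]; ring
      rw [e1, lev_mul (ez_isHomogeneous' hP i)]
    rw [eL, eR]
    have e5 : ∑ l ∈ range (m + 1), cf E l *
          (jf D (P0 ^ l * (ez i (lev (D * (m - l)) g) + lev (D * (m - l)) g)) +
            (l : E) * jf D (P0 ^ (l - 1) * (ez i P0 * lev (D * (m - l)) g))) =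
        ∑ l ∈ range (m + 1), cf E l *
          jf D (P0 ^ l * (ez i (lev (D * (m - l)) g) + lev (D * (m - l)) g)) +
        ∑ l ∈ range (m + 1), cf E l *
          ((l : E) * jf D (P0 ^ (l - 1) * (ez i P0 * lev (D * (m - l)) g))) := by
      rw [← Finset.sum_add_distrib]
      exact Finset.sum_congr rfl fun l _ => by ring
    rw [e5, sub_eq_add_neg, add_right_inj, Finset.sum_range_succ', Nat.cast_zero, zero_mul,
      mul_zero, add_zero, ← Finset.sum_neg_distrib]
    refine Finset.sum_congr rfl fun l hl => ?_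
    rw [Nat.add_sub_cancel, show m - (l + 1) = m - 1 - l by omega, ← mul_assoc, cf_succ]
    ring

theorem JP_low (a : Fin (n + 1) →₀ ℕ) (w : ℕ) (hD : 0 < D) (ha : a.degree + (n + 1) = D * w)
    (m : ℕ) (hm : m < w) : PowerSeries.coeff m (JP D P0 (monomial a 1)) = 0 := by
  rw [coeff_JP, JPc]
  refine Finset.sum_eq_zero fun l _ => ?_
  rw [lev_monomial, if_neg, mul_zero, map_zero, mul_zero]
  rw [ha]
  intro h
  have := Nat.eq_of_mul_eq_mul_left hD h
  omega

theorem JP_lead (a : Fin (n + 1) →₀ ℕ) (w : ℕ) (hD : 0 < D) (ha : a.degree + (n + 1) = D * w) :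
    PowerSeries.coeff w (JP D P0 (monomial a 1)) = jf D (monomial a 1) := by
  rw [coeff_JP, JPc, Finset.sum_eq_single 0]
  · rw [Nat.sub_zero, lev_monomial, if_pos ha, pow_zero, one_mul, cf, pow_zero,
      Nat.factorial_zero, Nat.cast_one, div_one, one_mul]
  · intro l hl h0
    have hl' := Finset.mem_range.1 hl
    rw [lev_monomial, if_neg, mul_zero, map_zero, mul_zero]
    rw [ha]
    intro h
    have := Nat.eq_of_mul_eq_mul_left hD h
    omega
  · intro h
    exact absurd (Finset.mem_range.2 (Nat.succ_pos w)) h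

end

/-! ### the Fermat polynomial -/

section
variable {A : Type} [CommRing A] (D : ℕ)

/-- `∑ z_i ^ D` -/
noncomputable def fer (n : ℕ) (A : Type) [CommRing A] (D : ℕ) : Poly n A := ∑ i, X i ^ D

theorem fer_hom (n : ℕ) : (fer n A D).IsHomogeneous D := by
  refine IsHomogeneous.sum _ _ _ fun i _ => ?_
  have := (isHomogeneous_X A i).pow D
  simpa using this

theorem faceP_fer (hD : 0 < D) (n : ℕ) : faceP (fer (n + 1) A D) = fer n A D := by
  rw [faceP, fer, map_sum, Fin.sum_univ_succ, fer]
  simp [hD.ne']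

theorem eP_fer (hD : 0 < D) (n : ℕ) : eP D n (fer n A D) =
    monomial (Finsupp.equivFunOnFinite.symm fun _ => D - 1) ((D : A) ^ n) := by
  induction n with
  | zero =>
    rw [eP, fer]
    have h1 : coeff (Finsupp.single 0 D) (∑ i : Fin 1, (X i ^ D : Poly 0 A)) = 1 := by
      rw [Fin.sum_univ_one, X_pow_eq_monomial, coeff_monomial, if_pos rfl]
    have h2 : (Finsupp.single (0 : Fin 1) (D - 1)) =
        Finsupp.equivFunOnFinite.symm fun _ : Fin 1 => D - 1 := by
      refine Finsupp.ext fun k => ?_
      rw [Subsingleton.elim k 0, Finsupp.single_eq_same]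
      rfl
    rw [h1, h2, pow_zero]
  | succ n ih =>
    rw [eP, faceP_fer D hD, ih]
    have h1 : pderiv 0 (fer (n + 1) A D) = (monomial (Finsupp.single 0 (D - 1)) (D : A) :
        Poly (n + 1) A) := by
      rw [fer, map_sum, Fin.sum_univ_succ]
      have h2 : ∀ i : Fin (n + 1), pderiv 0 ((X i.succ ^ D : Poly (n + 1) A)) = 0 := by
        intro i
        rw [pderiv_pow, pderiv_X_of_ne (Fin.succ_ne_zero i), mul_zero]
      rw [Finset.sum_eq_zero fun i _ => h2 i, add_zero, pderiv_pow, pderiv_X_self, mul_one,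
        X_pow_eq_monomial, ← map_natCast (C (R := A) (σ := Fin (n + 2))) D, C_mul_monomial,
        mul_one]
    have h3 : (Finsupp.single (0 : Fin (n + 2)) (D - 1) + Finsupp.mapDomain Fin.succ
        (Finsupp.equivFunOnFinite.symm fun _ : Fin (n + 1) => D - 1)) =
        Finsupp.equivFunOnFinite.symm fun _ : Fin (n + 2) => D - 1 := by
      refine Finsupp.ext fun k => ?_
      rw [Finsupp.add_apply, Finsupp.single_apply]
      refine Fin.cases ?_ (fun k => ?_) k
      · rw [if_pos rfl, Finsupp.mapDomain_of_notMem_range _ _ (by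
          rintro ⟨k, hk⟩; exact Fin.succ_ne_zero k hk)]
        rfl
      · rw [if_neg (Fin.succ_ne_zero k).symm, Finsupp.mapDomain_apply (Fin.succ_injective _),
          zero_add]
        rfl
    rw [h1, rename_monomial, monomial_mul, pow_succ, mul_comm (D : A), h3]

theorem eP_smul (n : ℕ) (c : A) (P : Poly n A) : eP D n (c • P) = c ^ (n + 1) • eP D n P := by
  induction n with
  | zero =>
    rw [eP, eP, coeff_smul, smul_monomial]
    congr 1
    rw [smul_eq_mul, smul_eq_mul]
    ring
  | succ n ih =>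
    rw [eP, eP]
    have h1 : faceP (c • P) = c • faceP P := by rw [faceP, faceP, map_smul]
    have h2 : pderiv 0 (c • P) = c • pderiv 0 P := (pderiv 0).map_smul c P
    rw [h1, ih, h2, map_smul, smul_mul_smul_comm, ← pow_succ']

end

/-! ### the functional over a field of Laurent series -/

section
variable {n : ℕ} {E : Type} [Field E] [CharZero E] (D : ℕ) (P0 : Poly n E)
variable {L : Type} [Field L] (ι : PowerSeries E →+* L)

/-- `x ↦ T⁻¹` -/
noncomputable def ev : Polynomial E →+* L :=
  Polynomial.eval₂RingHom (ι.comp PowerSeries.C) (ι PowerSeries.X)⁻¹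

theorem ev_ne_zero (hι : Function.Injective ι) (q : Polynomial E) (hq : q ≠ 0) :
    ev ι q ≠ 0 := by
  have hT : ι PowerSeries.X ≠ 0 := fun h =>
    PowerSeries.X_ne_zero (hι (h.trans (map_zero ι).symm))
  let _ : Invertible ((ι PowerSeries.X)⁻¹) := invertibleOfNonzero (inv_ne_zero hT)
  have h1 := Polynomial.eval₂_reverse_mul_pow (ι.comp PowerSeries.C) ((ι PowerSeries.X)⁻¹) q
  rw [invOf_eq_inv, inv_inv, ← Polynomial.hom_eval₂, Polynomial.eval₂_C_X_eq_coe] at h1
  have h2 : ev ι q = Polynomial.eval₂ (ι.comp PowerSeries.C) ((ι PowerSeries.X)⁻¹) q := rfl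
  rw [h2, ← h1]
  refine mul_ne_zero (fun h => ?_) (pow_ne_zero _ (inv_ne_zero hT))
  have h3 := hι (h.trans (map_zero ι).symm)
  rw [Polynomial.coe_eq_zero_iff, Polynomial.reverse_eq_zero] at h3
  exact hq h3

/-- the embedding of `E(x)` -/
noncomputable def emb (hι : Function.Injective ι) : RatFunc E →+* L :=
  RatFunc.liftRingHom (ev ι) (fun q hq => by
    rw [Submonoid.mem_comap, mem_nonZeroDivisors_iff_ne_zero]
    exact ev_ne_zero ι hι q (mem_nonZeroDivisors_iff_ne_zero.1 hq))

theorem emb_X (hι : Function.Injective ι) : emb ι hι RatFunc.X = (ι PowerSeries.X)⁻¹ := by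
  rw [emb, RatFunc.liftRingHom_X, ev]
  exact Polynomial.eval₂_X _ _

theorem emb_C (hι : Function.Injective ι) (c : E) :
    emb ι hι (algebraMap E (RatFunc E) c) = ι (PowerSeries.C c) := by
  rw [RatFunc.algebraMap_eq_C, emb, RatFunc.liftRingHom_C, ev]
  exact Polynomial.eval₂_C _ _

/-- the functional -/
noncomputable def JL : Poly n L →ₗ[L] L := linMon fun a => ι (JP D P0 (monomial a 1))

theorem JL_monomial (a : Fin (n + 1) →₀ ℕ) (r : L) :
    JL D P0 ι (monomial a r) = r * ι (JP D P0 (monomial a 1)) := by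
  rw [JL, linMon_monomial, smul_eq_mul]

theorem JL_map (g : Poly n E) : JL D P0 ι (map (ι.comp PowerSeries.C) g) = ι (JP D P0 g) := by
  induction g using MvPolynomial.induction_on' with
  | monomial b r =>
    have h1 : (monomial b r : Poly n E) = r • monomial b 1 := by
      rw [smul_monomial, smul_eq_mul, mul_one]
    rw [map_monomial, JL_monomial, h1, map_smul (JP D P0), PowerSeries.smul_eq_C_mul, map_mul,
      RingHom.comp_apply]
  | add g1 g2 h1 h2 => rw [map_add, map_add, h1, h2, map_add, map_add]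

theorem JL_Dop (hι : Function.Injective ι) (hD : 0 < D) (hP : P0.IsHomogeneous D)
    (i : Fin (n + 1)) (g : Poly n L) :
    JL D P0 ι (Dop (map (ι.comp PowerSeries.C) P0 + C (ι PowerSeries.X)⁻¹ * fer n L D) i g) =
      0 := by
  have hT : ι PowerSeries.X ≠ 0 := fun h =>
    PowerSeries.X_ne_zero (hι (h.trans (map_zero ι).symm))
  induction g using MvPolynomial.induction_on' with
  | monomial b r =>
    have h1 : (monomial b r : Poly n L) =
        r • map (ι.comp PowerSeries.C) (monomial b (1 : E)) := by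
      rw [map_monomial, map_one, smul_monomial, smul_eq_mul, mul_one]
    rw [h1, map_smul, map_smul]
    have h2 : ez i (fer n L D) = (D : Poly n L) * X i ^ D := by
      rw [fer, map_sum, Finset.sum_eq_single i]
      · rw [X_pow_eq_monomial, ez_monomial, Finsupp.single_eq_same, mul_one,
          ← map_natCast (C (R := L) (σ := Fin (n + 1))) D, C_mul_monomial, mul_one]
      · intro k _ hk
        rw [X_pow_eq_monomial, ez_monomial, Finsupp.single_eq_of_ne (Ne.symm hk), Nat.cast_zero,
          zero_mul, map_zero]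
      · intro h
        exact absurd (Finset.mem_univ i) h
    have h3 : Dop (map (ι.comp PowerSeries.C) P0 + C (ι PowerSeries.X)⁻¹ * fer n L D) i
        (map (ι.comp PowerSeries.C) (monomial b (1 : E))) =
        map (ι.comp PowerSeries.C) (Dop P0 i (monomial b (1 : E))) -
        (ι PowerSeries.X)⁻¹ • map (ι.comp PowerSeries.C)
          ((D : E) • (X i ^ D * monomial b (1 : E))) := by
      have h4 : ez i (C (ι PowerSeries.X)⁻¹ : Poly n L) = 0 := (ez i).map_algebraMap _
      rw [T99.map_Dop, Dop_apply, Dop_apply, map_add (ez i), Derivation.leibniz, h2, h4,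
        smul_zero, add_zero, smul_eq_mul, smul_eq_C_mul, smul_eq_C_mul, map_mul, map_C,
        map_natCast, map_natCast, map_mul, map_pow, map_X]
      ring
    rw [h3, map_sub, map_smul, JL_map, JL_map, JP_rel D P0 hD hP, map_mul, smul_eq_mul,
      smul_eq_mul, ← mul_assoc ((ι PowerSeries.X)⁻¹), inv_mul_cancel₀ hT, one_mul, sub_self,
      mul_zero]
  | add g1 g2 h1 h2 => rw [map_add, map_add, h1, h2, add_zero]

theorem JL_Rel (hι : Function.Injective ι) (hD : 0 < D) (hP : P0.IsHomogeneous D)
    (g : Poly n L)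
    (hg : g ∈ Rel (map (ι.comp PowerSeries.C) P0 + C (ι PowerSeries.X)⁻¹ * fer n L D)) :
    JL D P0 ι g = 0 := by
  obtain ⟨h, rfl⟩ := T99.mem_Rel.1 hg
  rw [map_sum]
  exact Finset.sum_eq_zero fun i _ => JL_Dop D P0 ι hι hD hP i _

/-- `X P_0 + ∑ z_i ^ D` -/
noncomputable def QQ : Poly n (PowerSeries E) :=
  C PowerSeries.X * map PowerSeries.C P0 + fer n (PowerSeries E) D

theorem QQ_hom (hP : P0.IsHomogeneous D) : (QQ D P0).IsHomogeneous D := by
  refine IsHomogeneous.add ?_ (fer_hom D n)
  have := (isHomogeneous_C (Fin (n + 1)) (PowerSeries.X : PowerSeries E)).mul (hP.map PowerSeries.C)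
  rwa [zero_add] at this

theorem map_fer {B B' : Type} [CommRing B] [CommRing B'] (f : B →+* B') (n : ℕ) :
    map f (fer n B D) = fer n B' D := by
  rw [fer, fer, map_sum]
  simp

theorem map_QQ (hι : Function.Injective ι) :
    map (ι.comp PowerSeries.C) P0 + C (ι PowerSeries.X)⁻¹ * fer n L D =
      (ι PowerSeries.X)⁻¹ • map ι (QQ D P0) := by
  have hT : ι PowerSeries.X ≠ 0 := fun h =>
    PowerSeries.X_ne_zero (hι (h.trans (map_zero ι).symm))
  rw [QQ, map_add, map_mul, map_C, MvPolynomial.map_map, map_fer, smul_add, smul_eq_C_mul, smul_eq_C_mul,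
    ← mul_assoc, ← map_mul, inv_mul_cancel₀ hT, map_one, one_mul]

theorem const_QQ : map PowerSeries.constantCoeff (QQ D P0) = fer n E D := by
  rw [QQ, map_add, map_mul, map_C, PowerSeries.constantCoeff_X, map_zero, zero_mul, zero_add,
    map_fer]

/-- the value of the functional on `e` -/
noncomputable def SS : PowerSeries E :=
  ∑ a ∈ (eP D n (QQ D P0)).support, coeff a (eP D n (QQ D P0)) * JP D P0 (monomial a 1)

theorem JL_eQ : JL D P0 ι (map ι (eP D n (QQ D P0))) = ι (SS D P0) := by
  conv_lhs => rw [(eP D n (QQ D P0)).as_sum, map_sum, map_sum]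
  rw [SS, map_sum]
  refine Finset.sum_congr rfl fun a _ => ?_
  rw [map_monomial, JL_monomial, map_mul]

theorem coeff_mul_low (f g : PowerSeries E) (w : ℕ)
    (hg : ∀ m < w, PowerSeries.coeff m g = 0) :
    PowerSeries.coeff w (f * g) = PowerSeries.constantCoeff f * PowerSeries.coeff w g := by
  rw [PowerSeries.coeff_mul, Finset.sum_eq_single (0, w)]
  · rw [PowerSeries.coeff_zero_eq_constantCoeff_apply]
  · rintro ⟨k, l⟩ hkl hne
    have h1 : k + l = w := Finset.HasAntidiagonal.mem_antidiagonal.1 hkl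
    have h2 : l < w := by
      by_contra h
      apply hne
      have : k = 0 := by omega
      subst this
      rw [zero_add] at h1
      rw [h1]
    rw [hg l h2, mul_zero]
  · intro h
    exact absurd (Finset.HasAntidiagonal.mem_antidiagonal.2 (zero_add w)) h

theorem coeff_SS (hD : 0 < D) (hP : P0.IsHomogeneous D) :
    PowerSeries.coeff (n + 1) (SS D P0) = (D : E) ^ n := by
  have hW := (EPW_proof (PowerSeries E) n D hD (QQ D P0) (QQ_hom D P0 hP)).1
  have hM := (EPW_proof (PowerSeries E) n D hD (QQ D P0) (QQ_hom D P0 hP)).2.1 E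
    PowerSeries.constantCoeff
  rw [const_QQ] at hM
  have h1 : PowerSeries.coeff (n + 1) (SS D P0) = jf D (eP D n (fer n E D)) := by
    rw [hM]
    conv_rhs => rw [(eP D n (QQ D P0)).as_sum, map_sum, map_sum]
    rw [SS, map_sum]
    refine Finset.sum_congr rfl fun a ha => ?_
    have ha' := hW a (mem_support_iff.1 ha)
    rw [coeff_mul_low _ _ _ (fun m hm => JP_low D P0 a (n + 1) hD ha' m hm),
      JP_lead D P0 a (n + 1) hD ha', map_monomial, jf_monomial, jf_monomial, one_mul]
  rw [h1, eP_fer D hD, jf_monomial]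
  classical
  have h2 : ∀ i, (Finsupp.equivFunOnFinite.symm fun _ : Fin (n + 1) => D - 1) i = D - 1 :=
    fun i => rfl
  rw [if_pos (fun i => by rw [h2 i, Nat.sub_add_cancel hD])]
  rw [Finset.prod_eq_one fun i _ => by
    rw [h2 i, Nat.sub_add_cancel hD, Nat.div_self hD, Nat.sub_self, Nat.factorial_zero,
      Nat.cast_one], mul_one]

end

end ENZm

open ENZm in
theorem ENZ_proof : ENZStmt := by
  intro E _ _ n D hD P0 hP hmem
  have hι : Function.Injective (HahnSeries.ofPowerSeries ℤ E) :=
    HahnSeries.ofPowerSeries_injective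
  generalize hιe : (HahnSeries.ofPowerSeries ℤ E : PowerSeries E →+* HahnSeries ℤ E) = ι at hι
  have hT : ι PowerSeries.X ≠ 0 := fun h =>
    PowerSeries.X_ne_zero (hι (h.trans (map_zero ι).symm))
  have hf : map (emb ι hι) (ferm D P0) =
      map (ι.comp PowerSeries.C) P0 + C (ι PowerSeries.X)⁻¹ * fer n _ D := by
    have e1 : (emb ι hι).comp (algebraMap E (RatFunc E)) = ι.comp PowerSeries.C :=
      RingHom.ext fun c => emb_C ι hι c
    have e2 : map (emb ι hι) (∑ i, X i ^ D : Poly n (RatFunc E)) = fer n _ D := map_fer D _ n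
    rw [ferm, map_add, map_mul, map_C, MvPolynomial.map_map, emb_X, e1, e2]
  obtain ⟨h, hh⟩ := T99.mem_Rel.1 hmem
  have h1 : map (emb ι hι) (eP D n (ferm D P0)) ∈
      Rel (map (ι.comp PowerSeries.C) P0 + C (ι PowerSeries.X)⁻¹ * fer n _ D) := by
    rw [hh, map_sum, T99.mem_Rel]
    exact ⟨fun i => map (emb ι hι) (h i), Finset.sum_congr rfl fun i _ => by
      rw [T99.map_Dop, hf]⟩
  have h2 := JL_Rel D P0 ι hι hD hP _ h1
  have h3 : map (emb ι hι) (eP D n (ferm D P0)) =
      ((ι PowerSeries.X)⁻¹) ^ (n + 1) • map ι (eP D n (QQ D P0)) := by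
    rw [← EPW.eP_map, hf, map_QQ D P0 ι hι, eP_smul, EPW.eP_map]
  rw [h3, map_smul, JL_eQ, smul_eq_mul] at h2
  have h4 : ι (SS D P0) = 0 :=
    (mul_eq_zero.1 h2).resolve_left (pow_ne_zero _ (inv_ne_zero hT))
  have h5 := hι (h4.trans (map_zero ι).symm)
  have h6 := coeff_SS D P0 hD hP
  rw [h5, map_zero] at h6
  exact pow_ne_zero n (Nat.cast_ne_zero.2 hD.ne' : (D : E) ≠ 0) h6.symm

end Pool.CUBE
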