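import Pool.Agent.H41.CUBE.TStmts

/-!
# Cube project (MP_47888e_al), block TAME, module PSI
-/

set_option autoImplicit false

open Finset MvPolynomial Pool.CM

namespace Pool.CUBE

namespace PSIm

/-! ### base change -/

section
variable {n : ℕ} {A B : Type} [CommRing A] [CommRing B] (f : A →+* B)

theorem map_ez (P : Poly n A) (k : Fin (n + 1)) : map f (ez k P) = ez k (map f P) := by
  rw [ez, ez, Derivation.smul_apply, Derivation.smul_apply, smul_eq_mul, smul_eq_mul, map_mul,
    map_X, pderiv_map]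

theorem map_Dop (P g : Poly n A) (k : Fin (n + 1)) :
    map f (Dop P k g) = Dop (map f P) k (map f g) := by
  rw [Dop_apply, Dop_apply, map_sub, map_add, map_mul, map_ez, map_ez]

theorem map_Rel (P g : Poly n A) (h : g ∈ Rel P) : map f g ∈ Rel (map f P) := by
  rw [Rel] at h
  induction h using Submodule.iSup_induction' with
  | mem k x hx =>
    obtain ⟨y, rfl⟩ := hx
    rw [map_Dop]
    exact Submodule.mem_iSup_of_mem k ⟨_, rfl⟩
  | zero => rw [map_zero]; exact Submodule.zero_mem _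
  | add x y _ _ hx hy => rw [map_add]; exact Submodule.add_mem _ hx hy

theorem map_pb (p : ℕ) (g : Poly n A) : map f (pb p g) = pb p (map f g) := by
  rw [pb, pb, map_mul, map_expand, Zp, Zp, map_monomial, map_one]

end

section
variable {n : ℕ} {A B : Type} [CommRing A] [CommRing B] (φ : A →+* B)
variable {N : Type}

theorem coF_monomial (co : Poly n A →ₗ[A] (N → A)) (a : Fin (n + 1) →₀ ℕ) (r : B) (j : N) :
    coF φ co (monomial a r) j = r * φ (co (monomial a 1) j) := by
  rw [coF, linMon_monomial, Pi.smul_apply, smul_eq_mul]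

theorem coF_map (co : Poly n A →ₗ[A] (N → A)) (g : Poly n A) (j : N) :
    coF φ co (map φ g) j = φ (co g j) := by
  induction g using MvPolynomial.induction_on' with
  | monomial a r =>
    rw [map_monomial, coF_monomial, ← map_mul]
    have h : (monomial a r : Poly n A) = r • monomial a 1 := by
      rw [smul_monomial, smul_eq_mul, mul_one]
    rw [h, map_smul, Pi.smul_apply, smul_eq_mul]
  | add g1 g2 h1 h2 =>
    rw [map_add, map_add, Pi.add_apply, h1, h2, map_add, Pi.add_apply, map_add]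

theorem coF_Dop {P : Poly n A} (co : Poly n A →ₗ[A] (N → A))
    (h : ∀ i g, co (Dop P i g) = 0) (k : Fin (n + 1)) (g : Poly n B) :
    coF φ co (Dop (map φ P) k g) = 0 := by
  induction g using MvPolynomial.induction_on' with
  | monomial a r =>
    have h1 : (monomial a r : Poly n B) = r • map φ (monomial a 1) := by
      rw [map_monomial, map_one, smul_monomial, smul_eq_mul, mul_one]
    rw [h1, map_smul, map_smul, ← map_Dop]
    have h2 : coF φ co (map φ (Dop P k (monomial a 1))) = 0 := by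
      funext j
      rw [coF_map, h, Pi.zero_apply, Pi.zero_apply, map_zero]
    rw [h2, smul_zero]
  | add g1 g2 h1 h2 => rw [map_add, map_add, h1, h2, add_zero]

theorem co_Rel {P : Poly n A} (co : Poly n A →ₗ[A] (N → A))
    (h : ∀ i g, co (Dop P i g) = 0) (g : Poly n A) (hg : g ∈ Rel P) : co g = 0 := by
  have : Rel P ≤ LinearMap.ker co := by
    rw [Rel, iSup_le_iff]
    rintro k _ ⟨y, rfl⟩
    exact h k y
  exact this hg

/-- decomposition after base change -/
theorem coF_span [Fintype N] {P : Poly n A} {D : ℕ} (b : N → Poly n A)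
    (co : Poly n A →ₗ[A] (N → A))
    (h : ∀ g, WtD D g → g - ∑ j, co g j • b j ∈ Rel P) (g : Poly n B) (hg : WtD D g) :
    g - ∑ j, coF φ co g j • map φ (b j) ∈ Rel (map φ P) := by
  classical
  have key : ∀ a : Fin (n + 1) →₀ ℕ, D ∣ a.degree + (n + 1) → ∀ r : B,
      (monomial a r : Poly n B) - ∑ j, coF φ co (monomial a r) j • map φ (b j) ∈
        Rel (map φ P) := by
    intro a ha r
    have h1 : (monomial a (1 : A) : Poly n A) - ∑ j, co (monomial a 1) j • b j ∈ Rel P := by
      refine h _ ?_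
      intro c hc
      rw [coeff_monomial] at hc
      split_ifs at hc with hac
      · rw [← hac]; exact ha
      · exact absurd rfl hc
    have h2 := Submodule.smul_mem _ r (map_Rel φ _ _ h1)
    have h3 : r • map φ ((monomial a (1 : A) : Poly n A) - ∑ j, co (monomial a 1) j • b j) =
        (monomial a r : Poly n B) - ∑ j, coF φ co (monomial a r) j • map φ (b j) := by
      rw [map_sub, map_sum, map_monomial, map_one, smul_sub, smul_monomial, smul_eq_mul, mul_one,
        Finset.smul_sum]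
      congr 1
      refine Finset.sum_congr rfl fun j _ => ?_
      rw [coF_monomial, smul_eq_C_mul (b j), map_mul, map_C, ← smul_eq_C_mul, smul_smul]
    rw [h3] at h2
    exact h2
  have hs : g - ∑ j, coF φ co g j • map φ (b j) =
      ∑ a ∈ g.support, ((monomial a (coeff a g) : Poly n B) -
        ∑ j, coF φ co (monomial a (coeff a g)) j • map φ (b j)) := by
    rw [Finset.sum_sub_distrib, ← g.as_sum]
    congr 1
    rw [Finset.sum_comm]
    refine Finset.sum_congr rfl fun j _ => ?_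
    rw [← Finset.sum_smul]
    congr 1
    conv_lhs => rw [g.as_sum, map_sum, Finset.sum_apply]
  rw [hs]
  refine Submodule.sum_mem _ fun a ha => key a (hg a ?_) _
  rwa [mem_support_iff] at ha

end

/-! ### weights -/

section
variable {n : ℕ} {A : Type} [CommRing A]

theorem wt_wtD {D m : ℕ} {g : Poly n A} (h : Wt (D * m) g) : WtD D g :=
  fun a ha => ⟨m, h a ha⟩

theorem lev_of_Wt {N : ℕ} {g : Poly n A} (h : Wt N g) : lev N g = g := by
  classical
  have : lev N g = ∑ a ∈ g.support, lev N (monomial a (coeff a g)) := by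
    conv_lhs => rw [g.as_sum, map_sum]
  rw [this]
  conv_rhs => rw [g.as_sum]
  refine Finset.sum_congr rfl fun a ha => ?_
  rw [lev_monomial, if_pos (h a (mem_support_iff.1 ha))]

theorem wtD_add {D : ℕ} {g h : Poly n A} (hg : WtD D g) (hh : WtD D h) : WtD D (g + h) := by
  intro a ha
  rw [coeff_add] at ha
  by_cases h1 : coeff a g = 0
  · rw [h1, zero_add] at ha
    exact hh a ha
  · exact hg a h1

theorem wtD_sum {D : ℕ} {ι : Type} (s : Finset ι) (g : ι → Poly n A)
    (h : ∀ j ∈ s, WtD D (g j)) : WtD D (∑ j ∈ s, g j) := by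
  intro a ha
  rw [coeff_sum] at ha
  obtain ⟨j, hj, hne⟩ := Finset.exists_ne_zero_of_sum_ne_zero ha
  exact h j hj a hne

theorem wtD_smul {D : ℕ} {g : Poly n A} (c : A) (hg : WtD D g) : WtD D (c • g) := by
  intro a ha
  rw [coeff_smul] at ha
  exact hg a fun h0 => ha (by rw [h0, smul_zero])

theorem wtD_mul_hom {D N : ℕ} {g Q : Poly n A} (hg : WtD D g) (hQ : Q.IsHomogeneous (D * N)) :
    WtD D (g * Q) := by
  classical
  intro a ha
  rw [coeff_mul] at ha
  obtain ⟨⟨u, v⟩, huv, hne⟩ := Finset.exists_ne_zero_of_sum_ne_zero ha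
  rw [HasAntidiagonal.mem_antidiagonal] at huv
  have h1 : coeff u g ≠ 0 := left_ne_zero_of_mul hne
  have h2 : coeff v Q ≠ 0 := right_ne_zero_of_mul hne
  have h3 : v.degree = D * N := by
    have := hQ h2
    rw [← this, Finsupp.degree_eq_weight_one]
    rfl
  have h4 : a.degree = u.degree + v.degree := by
    rw [← huv]; simp
  rw [h4, h3]
  have := hg u h1
  have h5 : u.degree + D * N + (n + 1) = (u.degree + (n + 1)) + D * N := by ring
  rw [h5]
  exact Dvd.dvd.add this (dvd_mul_right _ _)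

theorem wtD_pb {D p : ℕ} (hp : 0 < p) {g : Poly n A} (hg : WtD D g) : WtD D (pb p g) := by
  classical
  have : pb p g = ∑ a ∈ g.support, pb p (monomial a (coeff a g)) := by
    conv_lhs => rw [pb, g.as_sum, map_sum, Finset.sum_mul]
    rfl
  rw [this]
  refine wtD_sum _ _ fun a ha => ?_
  intro c hc
  have hk : (pb p (monomial a (coeff a g)) : Poly n A) =
      monomial (p • a + Finsupp.equivFunOnFinite.symm fun _ => p - 1) (coeff a g) := by
    rw [pb, expand_monomial, Zp, monomial_mul, mul_one]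
  rw [hk, coeff_monomial] at hc
  split_ifs at hc with hac
  · have h1 := hg a (mem_support_iff.1 ha)
    rw [← hac]
    have h2 : (p • a + (Finsupp.equivFunOnFinite.symm fun _ : Fin (n + 1) => p - 1) :
        Fin (n + 1) →₀ ℕ).degree = p * a.degree + (n + 1) * (p - 1) := by
      rw [Finsupp.degree_eq_sum, Finsupp.degree_eq_sum, Finset.mul_sum]
      simp [Finset.sum_add_distrib]
    rw [h2]
    have h3 : p * a.degree + (n + 1) * (p - 1) + (n + 1) = p * (a.degree + (n + 1)) := by
      obtain ⟨q, rfl⟩ : ∃ q, p = q + 1 := ⟨p - 1, by omega⟩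
      simp only [Nat.add_sub_cancel]
      ring
    rw [h3]
    exact Dvd.dvd.mul_left h1 p
  · exact absurd rfl hc

theorem cD_isHomogeneous {P : Poly n A} {D : ℕ} (δ : Derivation ℤ A A)
    (hP : P.IsHomogeneous D) : (cD δ P).IsHomogeneous D := by
  intro a ha
  apply hP
  intro h0
  apply ha
  change coeff a (cAdd (δ : A →+ A) P) = 0
  have : coeff a (cAdd (δ : A →+ A) P) = δ (coeff a P) := rfl
  rw [this, h0, map_zero]

theorem coeff_cD (δ : Derivation ℤ A A) (g : Poly n A) (a : Fin (n + 1) →₀ ℕ) :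
    coeff a (cD δ g) = δ (coeff a g) := rfl

theorem wtD_nab0 {P : Poly n A} {D : ℕ} (δ : Derivation ℤ A A)
    (hP : P.IsHomogeneous D) {g : Poly n A} (hg : WtD D g) : WtD D (nab0 δ P g) := by
  have h1 : WtD D (cD δ g) := by
    intro a ha
    rw [coeff_cD] at ha
    exact hg a fun h0 => ha (by rw [h0, map_zero])
  have h2 : WtD D (g * cD δ P) := by
    refine wtD_mul_hom (N := 1) hg ?_
    rw [mul_one]
    exact cD_isHomogeneous δ hP
  have h3 : nab0 δ P g = cD δ g + (-1 : A) • (g * cD δ P) := by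
    rw [nab0_apply, neg_smul, one_smul, mul_comm g]
    ring
  rw [h3]
  exact wtD_add h1 (wtD_smul _ h2)

end

/-! ### divisibility and reduction -/

section
variable {X : Idx} {E : Type} [Field E] {A : PF X E} {i : X.I} {M : ℕ}

theorem dv_zero : A.Dv i M 0 := ⟨0, (A.O i).zero_mem, by rw [mul_zero]⟩

theorem dv_add {x y : E} (hx : A.Dv i M x) (hy : A.Dv i M y) : A.Dv i M (x + y) := by
  obtain ⟨u, hu, rfl⟩ := hx
  obtain ⟨v, hv, rfl⟩ := hy
  exact ⟨u + v, (A.O i).add_mem hu hv, by ring⟩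

theorem dv_mul {x y : E} (hx : x ∈ A.O i) (hy : A.Dv i M y) : A.Dv i M (x * y) := by
  obtain ⟨v, hv, rfl⟩ := hy
  exact ⟨x * v, (A.O i).mul_mem hx hv, by ring⟩

theorem dv_neg {x : E} (hx : A.Dv i M x) : A.Dv i M (-x) := by
  obtain ⟨u, hu, rfl⟩ := hx
  exact ⟨-u, (A.O i).neg_mem hu, by ring⟩

theorem dv_sub {x y : E} (hx : A.Dv i M x) (hy : A.Dv i M y) : A.Dv i M (x - y) := by
  rw [sub_eq_add_neg]
  exact dv_add hx (dv_neg hy)

theorem dv_sum {ι : Type} (s : Finset ι) (f : ι → E) (h : ∀ j ∈ s, A.Dv i M (f j)) :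
    A.Dv i M (∑ j ∈ s, f j) := by
  classical
  induction s using Finset.induction_on with
  | empty => rw [Finset.sum_empty]; exact dv_zero
  | insert a s ha ih =>
    rw [Finset.sum_insert ha]
    exact dv_add (h a (Finset.mem_insert_self _ _))
      (ih fun j hj => h j (Finset.mem_insert_of_mem hj))

variable {n : ℕ}

theorem exists_lift {g : Poly n E} (h : CInt A i g) :
    ∃ g0 : Poly n (A.O i), map (A.O i).subtype g0 = g := by
  have : g ∈ Set.range (MvPolynomial.map (σ := Fin (n + 1)) (A.O i).subtype) := by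
    rw [mem_range_map_iff_coeffs_subset]
    intro x hx
    rw [Finset.mem_coe, mem_coeffs_iff] at hx
    obtain ⟨a, _, rfl⟩ := hx
    exact ⟨⟨_, h a⟩, rfl⟩
  exact this

theorem redTo_of_CInt {g : Poly n E} (h : CInt A i g) : ∃ gb, RedTo A i M g gb := by
  obtain ⟨g0, hg0⟩ := exists_lift h
  exact ⟨_, g0, hg0, rfl⟩

theorem redTo_cint {g : Poly n E} {gb : Poly n (Ob A i M)} (h : RedTo A i M g gb) :
    CInt A i g := by
  obtain ⟨g0, rfl, _⟩ := h
  intro a
  rw [coeff_map]
  exact (coeff a g0).2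

theorem redTo_add {g h : Poly n E} {gb hb : Poly n (Ob A i M)} (h1 : RedTo A i M g gb)
    (h2 : RedTo A i M h hb) : RedTo A i M (g + h) (gb + hb) := by
  obtain ⟨g0, rfl, rfl⟩ := h1
  obtain ⟨h0, rfl, rfl⟩ := h2
  exact ⟨g0 + h0, map_add _ _ _, map_add _ _ _⟩

theorem redTo_sub {g h : Poly n E} {gb hb : Poly n (Ob A i M)} (h1 : RedTo A i M g gb)
    (h2 : RedTo A i M h hb) : RedTo A i M (g - h) (gb - hb) := by
  obtain ⟨g0, rfl, rfl⟩ := h1
  obtain ⟨h0, rfl, rfl⟩ := h2
  exact ⟨g0 - h0, map_sub _ _ _, map_sub _ _ _⟩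

theorem redTo_mul {g h : Poly n E} {gb hb : Poly n (Ob A i M)} (h1 : RedTo A i M g gb)
    (h2 : RedTo A i M h hb) : RedTo A i M (g * h) (gb * hb) := by
  obtain ⟨g0, rfl, rfl⟩ := h1
  obtain ⟨h0, rfl, rfl⟩ := h2
  exact ⟨g0 * h0, map_mul _ _ _, map_mul _ _ _⟩

theorem redTo_pow {g : Poly n E} {gb : Poly n (Ob A i M)} (h1 : RedTo A i M g gb) (k : ℕ) :
    RedTo A i M (g ^ k) (gb ^ k) := by
  obtain ⟨g0, rfl, rfl⟩ := h1
  exact ⟨g0 ^ k, map_pow _ _ _, map_pow _ _ _⟩

theorem redTo_smul {g : Poly n E} {gb : Poly n (Ob A i M)} (h1 : RedTo A i M g gb)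
    (x : A.O i) (c : E) (d : Ob A i M) (hc : (x : E) = c) (hd : Ideal.Quotient.mk _ x = d) :
    RedTo A i M (c • g) (d • gb) := by
  obtain ⟨g0, rfl, rfl⟩ := h1
  refine ⟨x • g0, ?_, ?_⟩
  · rw [smul_eq_C_mul, map_mul, map_C, ← smul_eq_C_mul, ← hc]
    rfl
  · rw [smul_eq_C_mul, map_mul, map_C, ← smul_eq_C_mul, hd]

theorem redTo_sum {ι : Type} (s : Finset ι) (g : ι → Poly n E) (gb : ι → Poly n (Ob A i M))
    (h : ∀ j ∈ s, RedTo A i M (g j) (gb j)) : RedTo A i M (∑ j ∈ s, g j) (∑ j ∈ s, gb j) := by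
  classical
  induction s using Finset.induction_on with
  | empty =>
    rw [Finset.sum_empty, Finset.sum_empty]
    exact ⟨0, map_zero _, map_zero _⟩
  | insert a s ha ih =>
    rw [Finset.sum_insert ha, Finset.sum_insert ha]
    exact redTo_add (h a (Finset.mem_insert_self _ _))
      (ih fun j hj => h j (Finset.mem_insert_of_mem hj))

theorem redTo_Dop {P g : Poly n E} {P' gb : Poly n (Ob A i M)} (h1 : RedTo A i M P P')
    (h2 : RedTo A i M g gb) (k : Fin (n + 1)) :
    RedTo A i M (Pool.CUBE.Dop P k g) (Pool.CUBE.Dop P' k gb) := by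
  obtain ⟨P0, rfl, rfl⟩ := h1
  obtain ⟨g0, rfl, rfl⟩ := h2
  exact ⟨Pool.CUBE.Dop P0 k g0, map_Dop _ _ _ _, map_Dop _ _ _ _⟩

theorem redTo_pb {g : Poly n E} {gb : Poly n (Ob A i M)} (h1 : RedTo A i M g gb) (p : ℕ) :
    RedTo A i M (Pool.CUBE.pb p g) (Pool.CUBE.pb p gb) := by
  obtain ⟨g0, rfl, rfl⟩ := h1
  exact ⟨Pool.CUBE.pb p g0, map_pb _ _ _, map_pb _ _ _⟩

theorem redTo_wt {g : Poly n E} {gb : Poly n (Ob A i M)} (h1 : RedTo A i M g gb) {K : ℕ}
    (h : Wt K g) : Wt K gb := by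
  obtain ⟨g0, rfl, rfl⟩ := h1
  intro a ha
  apply h a
  rw [coeff_map] at ha ⊢
  intro h0
  apply ha
  have : coeff a g0 = 0 := Subtype.ext h0
  rw [this, map_zero]

theorem redTo_cD {g : Poly n E} {gb : Poly n (Ob A i M)} (h1 : RedTo A i M g gb)
    (δ : Derivation ℤ E E) (δ' : Derivation ℤ (Ob A i M) (Ob A i M))
    (hO : ∀ x, x ∈ A.O i → δ x ∈ A.O i)
    (h : ∀ x y : A.O i, δ (x : E) = (y : E) →
      δ' (Ideal.Quotient.mk _ x) = Ideal.Quotient.mk _ y) :
    RedTo A i M (Pool.CUBE.cD δ g) (Pool.CUBE.cD δ' gb) := by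
  obtain ⟨g0, rfl, rfl⟩ := h1
  have hI : CInt A i (Pool.CUBE.cD δ (map (A.O i).subtype g0)) := by
    intro a
    rw [coeff_cD, coeff_map]
    exact hO _ (coeff a g0).2
  obtain ⟨g1, hg1⟩ := exists_lift hI
  refine ⟨g1, hg1, ?_⟩
  ext a
  have e : coeff a (Pool.CUBE.cD δ' (map (Ideal.Quotient.mk _) g0)) =
      δ' (Ideal.Quotient.mk _ (coeff a g0)) := by
    rw [← coeff_map]
    rfl
  rw [coeff_map, e]
  symm
  apply h
  have := congrArg (coeff a) hg1
  rw [coeff_map, coeff_cD, coeff_map] at this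
  exact this.symm

end

end PSIm

open PSIm in
theorem PSI_proof (hCI : CIStmt) (hEEF : EEFStmt) (hGAM : GAMStmt) (hRHB : RHBStmt)
    (hFDQ : FDQStmt) (hLIFT : LIFTStmt) (hEPSI : EPSIStmt) (hEPW : EPWStmt) : PSIStmt := by
  classical
  intro X E _ _ A hA n D hD P hP hRed N _ _ b l co hco M hM
  have h1 := hCI X E A hA n D hD P hP hRed N b l co hco
  have h2 := hGAM X E A hA n M hM
  have h3 := hFDQ X E A hA n D M hD hM
  have h4 := Idx.Ev.large (X := X) (n + M + 2)
  refine ((h1.and h2).and (h3.and h4)).mono ?_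
  rintro i ⟨⟨⟨hPI, hbI, hcoI, hcoD, hdec⟩, ⟨-, -, -, -, hcc⟩⟩, hF, hlarge⟩ B Am hBdef hAdef
  obtain ⟨F, Fp, FDd, FJ, FP, FP', FE, FEh, Fγ, Fδ⟩ := hF P hP hPI
  obtain ⟨eh, ei, -, -, -, -⟩ := hEEF X E A hA i n D P hP hPI
  obtain ⟨r1, r2, r3, r4⟩ := hRHB
  have hpr := X.hp i
  have hp2 : 2 ≤ X.p i := hpr.two_le
  have hp0 : 0 < X.p i := hpr.pos
  have hFD : 0 < F.D := by rw [FDd]; exact hD
  have hFEh : F.E.IsHomogeneous (F.p * F.D) := by rw [Fp, FDd]; exact FEh
  have hφO : ∀ g : Poly n E, CInt A i g → CInt A i (map (A.phi i) g) := by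
    intro g hg a
    rw [coeff_map]
    exact hA.phi_O i _ (hg a)
  -- K1: reduction of rho
  have rhoR : ∀ (g : Poly n E) (gb : Poly n (Ob A i M)), RedTo A i M g gb →
      RedTo A i M (rhoE (X.p i) D M (A.phi i) P g)
        (rho0 F.p F.D F.J F.γ F.P F.E gb) := by
    rintro g gb ⟨g0, hg0, rfl⟩
    obtain ⟨P0, hP0, hP0'⟩ := FP
    obtain ⟨E0, hE0, hE0'⟩ := FE
    choose γ0 hγ0 hγ0' using Fγ
    refine ⟨rho0 (X.p i) D M γ0 P0 E0 g0, ?_, ?_⟩
    · have hf : (fun j => (A.O i).subtype (γ0 j)) = gam E (X.p i) := funext fun j => hγ0 j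
      rw [r2, hP0, hE0, hg0, rhoE, hf]
    · have hf : (fun j => Ideal.Quotient.mk (Ideal.span {((X.p i : ℕ) : A.O i) ^ M}) (γ0 j)) =
          F.γ := funext fun j => hγ0' j
      rw [r2, hP0', hE0', Fp, FDd, FJ, hf]
  -- K3
  have psiR : ∀ gb : Poly n (Ob A i M), F.psi0 gb =
      cls F.P' (rho0 F.p F.D F.J F.γ F.P F.E gb) := fun gb =>
    r1 n (Ob A i M) F hFD hFEh gb
  -- K2
  have lift : ∀ (g : Poly n E) (gb : Poly n (Ob A i M)), RedTo A i M g gb →
      cls F.P' gb = 0 → ∀ j, A.Dv i M (coF (A.phi i) co g j) := by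
    intro g gb hg h0
    refine hLIFT X E A hA i n M (map (A.phi i) P) (hφO P hPI) N (coF (A.phi i) co)
      (fun k g => coF_Dop (A.phi i) co hco.rel k g) (fun g hg => (hcoD M g hg).2) F.P' FP' g gb
      hg ?_
    exact (Submodule.Quotient.mk_eq_zero _).1 h0
  have hBap : ∀ a j, B a j = coF (A.phi i) co (rhoE (X.p i) D M (A.phi i) P (b j)) a := by
    intro a j
    rw [hBdef]
    rfl
  have hAap : ∀ a j, Am a j = co (yE (X.p i) M (l j) (A.phi i) P (map (A.phi i) (b j))) a := by
    intro a j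
    rw [hAdef]
    rfl
  -- (1)
  have c1 : ∀ a j, B a j ∈ A.O i := by
    intro a j
    obtain ⟨gb, hgb⟩ := redTo_of_CInt (M := M) (hbI j)
    rw [hBap]
    exact (hcoI _ (redTo_cint (rhoR _ _ hgb))).2 a
  -- (3)
  have c3 : ∀ g, CInt A i g → WtD D g → ∀ a,
      A.Dv i M (coF (A.phi i) co (rhoE (X.p i) D M (A.phi i) P g) a - ∑ j, B a j * co g j) := by
    intro g hg hw a
    obtain ⟨h, -, hhI, hdecg⟩ := hdec g hg hw
    have e1 : coF (A.phi i) co (rhoE (X.p i) D M (A.phi i) P g) a - ∑ j, B a j * co g j =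
        ∑ k, coF (A.phi i) co (rhoE (X.p i) D M (A.phi i) P (Dop P k (h k))) a := by
      have e2 : coF (A.phi i) co (rhoE (X.p i) D M (A.phi i) P g) a =
          coF (A.phi i) co (rhoE (X.p i) D M (A.phi i) P
            (∑ j, co g j • b j + ∑ k, Dop P k (h k))) a := by
        rw [← hdecg]
      rw [e2]
      simp only [map_add, map_sum, map_smul, Pi.add_apply, Finset.sum_apply, Pi.smul_apply,
        smul_eq_mul]
      have e3 : ∑ j, co g j * coF (A.phi i) co (rhoE (X.p i) D M (A.phi i) P (b j)) a =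
          ∑ j, B a j * co g j := by
        refine Finset.sum_congr rfl fun j _ => ?_
        rw [hBap, mul_comm]
      rw [e3, add_sub_cancel_left]
    rw [e1]
    refine dv_sum _ _ fun k _ => ?_
    obtain ⟨hb, hhb⟩ := redTo_of_CInt (M := M) (hhI k)
    refine lift _ _ (rhoR _ _ (redTo_Dop FP hhb k)) ?_ a
    rw [← psiR]
    exact F.psi0_Dop hFD k hb
  -- yE
  have hl : ∀ j, 1 ≤ l j ∧ l j ≤ n + 1 := hco.l1
  have yR : ∀ j, ∃ (c : ℕ → Ob A i M) (gb : Poly n (Ob A i M)),
      RedTo A i M (map (A.phi i) (b j)) gb ∧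
      RedTo A i M (yE (X.p i) M (l j) (A.phi i) P (map (A.phi i) (b j))) (F.yN c gb) ∧
      ∀ k, k < F.J → c k * ((FD.K (F.p * (l j + k)) (l j + k) : ℕ) : Ob A i M) =
        ((X.p i : ℕ) : Ob A i M) ^ n * F.γ k := by
    intro j
    obtain ⟨gb, hgb⟩ := redTo_of_CInt (M := M) (hφO _ (hbI j))
    have hc0 : ∀ k, k < M → cc E (X.p i) n (l j) k ∈ A.O i := fun k hk =>
      (hcc (l j) (hl j).1 (hl j).2 k hk).1
    refine ⟨fun k => if hk : k < M then Ideal.Quotient.mk _ ⟨_, hc0 k hk⟩ else 0, gb, hgb,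
      ?_, ?_⟩
    · rw [yE, FD.yN, FJ]
      refine redTo_sum _ _ _ fun k hk => ?_
      rw [Finset.mem_range] at hk
      rw [dif_pos hk]
      refine redTo_smul ?_ ⟨_, hc0 k hk⟩ _ _ rfl rfl
      rw [Fp]
      exact redTo_mul (redTo_pb hgb _) (redTo_pow FE k)
    · intro k hk
      rw [FJ] at hk
      simp only [dif_pos hk]
      obtain ⟨x, hx, hx'⟩ := Fγ k
      rw [← hx', Fp]
      have e := (hcc (l j) (hl j).1 (hl j).2 k hk).2.2
      have e' : (⟨_, hc0 k hk⟩ : A.O i) * ((FD.K (X.p i * (l j + k)) (l j + k) : ℕ) : A.O i) =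
          ((X.p i : ℕ) : A.O i) ^ n * x := by
        apply Subtype.ext
        push_cast
        rw [hx]
        exact e
      have := congrArg (Ideal.Quotient.mk (Ideal.span {((X.p i : ℕ) : A.O i) ^ M})) e'
      simpa only [map_mul, map_pow, map_natCast] using this
  -- (2)
  have c2 : ∀ a j, Am a j ∈ A.O i := by
    intro a j
    obtain ⟨c, gb, _, h, _⟩ := yR j
    rw [hAap]
    exact (hcoI _ (redTo_cint h)).1 a
  refine ⟨c1, c2, c3, ?_, ?_, ?_, ?_⟩
  · -- B A = p ^ n
    intro a j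
    obtain ⟨c, gb, hgb, hy, hc⟩ := yR j
    have hw : WtD D (yE (X.p i) M (l j) (A.phi i) P (map (A.phi i) (b j))) := by
      rw [yE]
      refine wtD_sum _ _ fun k _ => wtD_smul _ ?_
      have hb1 : WtD D (map (A.phi i) (b j)) := by
        intro a ha
        rw [coeff_map] at ha
        exact wt_wtD (hco.lb j) a fun h0 => ha (by rw [h0, map_zero])
      refine wtD_mul_hom (N := X.p i * k) (wtD_pb hp0 hb1) ?_
      have := eh.pow k
      have e : X.p i * D * k = D * (X.p i * k) := by ring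
      rw [← e]
      exact this
    have k1 := c3 _ (redTo_cint hy) hw a
    have k2 : A.Dv i M (coF (A.phi i) co (rhoE (X.p i) D M (A.phi i) P
        (yE (X.p i) M (l j) (A.phi i) P (map (A.phi i) (b j))) -
        (X.p i : E) ^ n • map (A.phi i) (b j)) a) := by
      refine lift _ (rho0 F.p F.D F.J F.γ F.P F.E (F.yN c gb) -
        ((X.p i : ℕ) : Ob A i M) ^ n • gb) (redTo_sub (rhoR _ _ hy) (redTo_smul hgb
          (((X.p i : ℕ) : A.O i) ^ n) _ _ (by push_cast; rfl) (by rw [map_pow, map_natCast]))) ?_ a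
      have hlev : lev (F.D * l j) gb = gb := by
        refine lev_of_Wt (redTo_wt hgb ?_)
        rw [FDd]
        intro a ha
        rw [coeff_map] at ha
        exact hco.lb j a fun h0 => ha (by rw [h0, map_zero])
      have k3 := F.psi0_yN hFD (by rw [FJ]; exact hM) hFEh (l j) (hl j).1 c
        (((X.p i : ℕ) : Ob A i M) ^ n) hc gb
      rw [hlev] at k3
      rw [map_sub, ← psiR, k3, map_smul, sub_self]
    rw [map_sub, map_smul, Pi.sub_apply, Pi.smul_apply, coF_map, hco.cb, smul_eq_mul] at k2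
    have k4 : (B * Am) a j = ∑ c, B a c *
        co (yE (X.p i) M (l j) (A.phi i) P (map (A.phi i) (b j))) c := by
      rw [Matrix.mul_apply]
      exact Finset.sum_congr rfl fun c _ => by rw [hAap]
    have k5 : (A.phi i) ((Pi.single j 1 : N → E) a) = if a = j then 1 else 0 := by
      rw [Pi.single_apply]
      split_ifs
      · rw [map_one]
      · rw [map_zero]
    rw [k5] at k2
    rw [k4]
    have := dv_sub k2 k1
    convert this using 1
    ring
  · -- horizontality
    intro j a c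
    have hD0 : ∀ x, x ∈ A.O i → A.D j x ∈ A.O i := hA.D_O i j
    obtain ⟨δ, hδ, hδ'⟩ := Fδ j
    obtain ⟨gb, hgb⟩ := redTo_of_CInt (M := M) (hbI c)
    have nabR : ∀ (Q g : Poly n E) (Qb gb : Poly n (Ob A i M)), RedTo A i M Q Qb →
        RedTo A i M g gb → RedTo A i M (nab0 (A.D j) Q g) (nab0 δ Qb gb) := by
      intro Q g Qb gb hQ hg
      change RedTo A i M (cD (A.D j) g - cD (A.D j) Q * g) (cD δ gb - cD δ Qb * gb)
      exact redTo_sub (redTo_cD hg _ δ hD0 hδ') (redTo_mul (redTo_cD hQ _ δ hD0 hδ') hg)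
    have hgn := nabR P (b c) F.P gb FP hgb
    have k1 := c3 _ (redTo_cint hgn) (wtD_nab0 _ hP (wt_wtD (hco.lb c))) a
    set h : Poly n E := rhoE (X.p i) D M (A.phi i) P (b c) with hh
    have k2 : A.Dv i M (coF (A.phi i) co (rhoE (X.p i) D M (A.phi i) P (nab0 (A.D j) P (b c)) -
        nab0 (A.D j) (map (A.phi i) P) h) a) := by
      refine lift _ (rho0 F.p F.D F.J F.γ F.P F.E (nab0 δ F.P gb) -
        nab0 δ F.P' (rho0 F.p F.D F.J F.γ F.P F.E gb)) (redTo_sub (rhoR _ _ hgn)
          (nabR _ _ _ _ FP' (rhoR _ _ hgb))) ?_ a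
      rw [map_sub, ← psiR, F.psi0_nab0 hFD δ hδ, psiR]
      exact sub_self _
    have hw : WtD D h := by
      rw [hh, rhoE]
      exact r3 n E (X.p i) D M _ P _ hp2 hD hP eh _
    have k3 : coF (A.phi i) co (nab0 (A.D j) (map (A.phi i) P) h) a =
        A.D j (B a c) + (X.p i : E) * ∑ d, A.phi i (matG (A.D j) P b co a d) * B d c := by
      have hrel := nab0_Rel (A.D j) (map (A.phi i) P) _
        (coF_span (A.phi i) b co hco.span h hw)
      have hz := co_Rel (coF (A.phi i) co) (fun k g => coF_Dop (A.phi i) co hco.rel k g) _ hrel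
      rw [map_sub, map_sub, sub_eq_zero] at hz
      rw [hz, map_sum, map_sum, Finset.sum_apply]
      have : ∀ d, coF (A.phi i) co (nab0 (A.D j) (map (A.phi i) P)
          (coF (A.phi i) co h d • map (A.phi i) (b d))) a =
          (X.p i : E) * (A.phi i (matG (A.D j) P b co a d) * B d c) +
            A.D j (B d c) * (if a = d then 1 else 0) := by
        intro d
        have hBd : coF (A.phi i) co h d = B d c := by rw [hBap]
        have hn : nab0 (A.D j) (map (A.phi i) P) (map (A.phi i) (b d)) =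
            (X.p i : E) • map (A.phi i) (nab0 (A.D j) P (b d)) := by
          have hcd : ∀ g : Poly n E, cD (A.D j) (map (A.phi i) g) =
              (X.p i : E) • map (A.phi i) (cD (A.D j) g) := by
            intro g
            ext u
            rw [coeff_cD, coeff_map, hA.D_phi, coeff_smul, coeff_map, coeff_cD, smul_eq_mul]
          rw [nab0_apply, nab0_apply, hcd, hcd, map_sub, map_mul, smul_sub, smul_mul_assoc]
        rw [hBd, nab0_smul, hn, map_add, map_smul, map_smul, map_smul, Pi.add_apply,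
          Pi.smul_apply, Pi.smul_apply, Pi.smul_apply, coF_map, coF_map, hco.cb,
          smul_eq_mul, smul_eq_mul, smul_eq_mul, Pi.single_apply]
        have hG : co (nab0 (A.D j) P (b d)) a = matG (A.D j) P b co a d := rfl
        rw [hG]
        split_ifs
        · rw [map_one]; ring
        · rw [map_zero]; ring
      rw [Finset.sum_congr rfl fun d _ => this d, Finset.sum_add_distrib, ← Finset.mul_sum]
      have e : ∑ d, A.D j (B d c) * (if a = d then (1 : E) else 0) = A.D j (B a c) := by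
        simp
      rw [e, add_comm]
    rw [map_sub, Pi.sub_apply, k3] at k2
    have k4 : (B * matG (A.D j) P b co) a c = ∑ d, B a d * co (nab0 (A.D j) P (b c)) d := by
      rw [Matrix.mul_apply]
      rfl
    have k5 : ((matG (A.D j) P b co).map (A.phi i) * B) a c =
        ∑ d, A.phi i (matG (A.D j) P b co a d) * B d c := by
      rw [Matrix.mul_apply]
      rfl
    rw [k4, k5]
    have := dv_sub k2 k1
    convert this using 1
    ring
  · -- gap
    intro j hlj a
    rw [hAap]
    refine (hcoD 1 _ ?_).1 a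
    intro u
    have hyE : yE (X.p i) M (l j) (A.phi i) P (map (A.phi i) (b j)) =
        ∑ k ∈ range M, cc E (X.p i) n (l j) k •
          (pb (X.p i) (map (A.phi i) (b j)) * EE (X.p i) (A.phi i) P ^ k) := rfl
    rw [hyE, coeff_sum]
    refine dv_sum _ _ fun k hk => ?_
    rw [Finset.mem_range] at hk
    rw [coeff_smul, smul_eq_mul, mul_comm]
    refine dv_mul ?_ ((hcc (l j) (hl j).1 (hl j).2 k hk).2.1 hlj)
    obtain ⟨gb, hgb⟩ := redTo_of_CInt (M := M) (hφO _ (hbI j))
    exact redTo_cint (redTo_mul (redTo_pb hgb _) (redTo_pow FE k)) u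
  · -- e
    intro a
    have hw := (hEPW E n D hD P hP).1
    have hI : CInt A i (eP D n P) := by
      have := (hEPW E n D hD P hP).2.2 (fun _ => (A.O i).toAddSubgroup)
        ⟨fun _ _ _ => le_rfl, (A.O i).one_mem, fun _ _ _ _ hx hy => (A.O i).mul_mem hx hy⟩ hPI
      exact this
    have k1 := c3 _ hI (wt_wtD hw) a
    have eR : ∀ (Q : Poly n E) (Qb : Poly n (Ob A i M)), Q.IsHomogeneous D →
        Qb.IsHomogeneous D → RedTo A i M Q Qb → RedTo A i M (eP D n Q) (eP D n Qb) := by
      rintro Q Qb hQ hQb ⟨Q0, hQ0, hQ0'⟩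
      have hQh : Q0.IsHomogeneous D := by
        intro u hu
        apply hQ
        rw [← hQ0, coeff_map]
        exact fun h0 => hu (Subtype.ext h0)
      refine ⟨eP D n Q0, ?_, ?_⟩
      · rw [← hQ0]
        exact ((hEPW (A.O i) n D hD Q0 hQh).2.1 E (A.O i).subtype).symm
      · rw [← hQ0']
        exact ((hEPW (A.O i) n D hD Q0 hQh).2.1 _ _).symm
    have hPφ : (map (A.phi i) P).IsHomogeneous D := hP.map _
    have hFPh : F.P.IsHomogeneous D := by rw [← FDd]; exact F.hP
    have hFPh' : F.P'.IsHomogeneous D := by rw [← FDd]; exact F.hP'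
    have k2 : A.Dv i M (coF (A.phi i) co (rhoE (X.p i) D M (A.phi i) P (eP D n P) -
        (X.p i : E) ^ n • eP D n (map (A.phi i) P)) a) := by
      refine lift _ (rho0 F.p F.D F.J F.γ F.P F.E (eP D n F.P) -
        ((X.p i : ℕ) : Ob A i M) ^ n • eP D n F.P') (redTo_sub (rhoR _ _ (eR _ _ hP hFPh FP))
          (redTo_smul (eR _ _ hPφ hFPh' FP')
          (((X.p i : ℕ) : A.O i) ^ n) _ _ (by push_cast; rfl) (by rw [map_pow, map_natCast])))
          ?_ a
      have k3 := hEPSI n (Ob A i M) F hFD hFEh (by rw [Fp]; omega) (by rw [FJ]; exact hM)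
      rw [FDd, Fp] at k3
      rw [map_sub, ← psiR, k3, map_smul, sub_self]
    rw [(hEPW E n D hD P hP).2.1 E (A.phi i), map_sub, map_smul, Pi.sub_apply, Pi.smul_apply,
      coF_map, smul_eq_mul] at k2
    have := dv_sub k2 k1
    convert this using 1
    ring

end Pool.CUBE
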