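import Pool.Agent.H38.CUBE.JJStmts2
import Pool.Agent.H22.CUBE.RHB

/-!
# Cube project (MP_47888e_al), block JJ part 2, module RHO: `ρ (z ^ a)` over `E[τ][λ][σ]`
-/

set_option autoImplicit false

open Polynomial

namespace Pool.CUBE

open Pool.CM Pool.H93.Cube

namespace F_RHO

/-! ### Frobenius lifts modulo `p` -/

section
variable {T : Type} [CommRing T]

/-- `x ∈ U` with `F x = x ^ p + p y`, `y ∈ U` -/
def Fr (U : Subring T) (F : T →+* T) (p : ℕ) (x : T) : Prop :=
  x ∈ U ∧ ∃ y ∈ U, F x = x ^ p + (p : T) * y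

variable {U : Subring T} {F : T →+* T} {p : ℕ}

theorem Fr.zero (hp : p.Prime) : Fr U F p 0 :=
  ⟨U.zero_mem, 0, U.zero_mem, by rw [map_zero, zero_pow hp.ne_zero, mul_zero, add_zero]⟩

theorem Fr.add (hp : p.Prime) {x x' : T} (h : Fr U F p x) (h' : Fr U F p x') :
    Fr U F p (x + x') := by
  obtain ⟨hx, y, hy, e⟩ := h
  obtain ⟨hx', y', hy', e'⟩ := h'
  obtain ⟨r, hr⟩ := exists_add_pow_prime_eq hp (⟨x, hx⟩ : U) (⟨x', hx'⟩ : U)
  have hr' := congrArg (fun z : U => (z : T)) hr
  push_cast at hr'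
  refine ⟨U.add_mem hx hx', y + y' - x * x' * (r : T),
    U.sub_mem (U.add_mem hy hy') (U.mul_mem (U.mul_mem hx hx') r.2), ?_⟩
  rw [map_add, e, e', hr']
  ring

theorem Fr.mul {x x' : T} (h : Fr U F p x) (h' : Fr U F p x') : Fr U F p (x * x') := by
  obtain ⟨hx, y, hy, e⟩ := h
  obtain ⟨hx', y', hy', e'⟩ := h'
  refine ⟨U.mul_mem hx hx', x ^ p * y' + y * x' ^ p + (p : T) * (y * y'), ?_, ?_⟩
  · exact U.add_mem (U.add_mem (U.mul_mem (U.pow_mem hx _) hy')
      (U.mul_mem hy (U.pow_mem hx' _))) (U.mul_mem (natCast_mem _ _) (U.mul_mem hy hy'))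
  · rw [map_mul, e, e', mul_pow]
    ring

theorem Fr.of_eq {x : T} (hx : x ∈ U) (h : F x = x ^ p) : Fr U F p x :=
  ⟨hx, 0, U.zero_mem, by rw [h, mul_zero, add_zero]⟩

theorem Fr.one : Fr U F p 1 := Fr.of_eq U.one_mem (by rw [map_one, one_pow])

theorem Fr.pow {x : T} (h : Fr U F p x) (k : ℕ) : Fr U F p (x ^ k) := by
  induction k with
  | zero => rw [pow_zero]; exact Fr.one
  | succ k ih => rw [pow_succ]; exact ih.mul h

theorem Fr.sum (hp : p.Prime) {ι : Type} (s : Finset ι) (f : ι → T)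
    (h : ∀ i ∈ s, Fr U F p (f i)) : Fr U F p (∑ i ∈ s, f i) := by
  classical
  induction s using Finset.induction_on with
  | empty => rw [Finset.sum_empty]; exact Fr.zero hp
  | insert i s hi ih =>
    rw [Finset.sum_insert hi]
    exact (h i (Finset.mem_insert_self _ _)).add hp
      (ih fun j hj => h j (Finset.mem_insert_of_mem hj))

end

/-- polynomials in `σ` with coefficients in `U` -/
def PU {R : Type} [CommRing R] (U : Subring R) : Subring R[X] where
  carrier := {x | ∀ k, x.coeff k ∈ U}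
  mul_mem' := by
    intro x y hx hy k
    rw [Polynomial.coeff_mul]
    exact U.sum_mem fun c _ => U.mul_mem (hx _) (hy _)
  one_mem' := by
    intro k
    rw [Polynomial.coeff_one]
    split_ifs
    · exact U.one_mem
    · exact U.zero_mem
  add_mem' := by
    intro x y hx hy k
    rw [Polynomial.coeff_add]
    exact U.add_mem (hx _) (hy _)
  zero_mem' := by
    intro k
    rw [Polynomial.coeff_zero]
    exact U.zero_mem
  neg_mem' := by
    intro x hx k
    rw [Polynomial.coeff_neg]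
    exact U.neg_mem (hx _)

theorem mem_PU {R : Type} [CommRing R] {U : Subring R} {x : R[X]} :
    x ∈ PU U ↔ ∀ k, x.coeff k ∈ U := Iff.rfl

theorem C_mem_PU {R : Type} [CommRing R] {U : Subring R} {x : R} (h : x ∈ U) :
    Polynomial.C x ∈ PU U := by
  intro k
  rw [Polynomial.coeff_C]
  split_ifs
  · exact h
  · exact U.zero_mem

theorem X_mem_PU {R : Type} [CommRing R] {U : Subring R} : (Polynomial.X : R[X]) ∈ PU U := by
  intro k
  rw [Polynomial.coeff_X]
  split_ifs
  · exact U.one_mem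
  · exact U.zero_mem

/-- multivariate polynomials with coefficients in `U` -/
def MU {R : Type} [CommRing R] (U : Subring R) (n : ℕ) : Subring (Poly n R) where
  carrier := {g | ∀ b, MvPolynomial.coeff b g ∈ U}
  mul_mem' := by
    classical
    intro u v hu hv m
    rw [MvPolynomial.coeff_mul]
    exact U.sum_mem fun x _ => U.mul_mem (hu _) (hv _)
  one_mem' := by
    classical
    intro m
    rw [MvPolynomial.coeff_one]
    split
    · exact U.one_mem
    · exact U.zero_mem
  add_mem' := by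
    intro u v hu hv m
    rw [MvPolynomial.coeff_add]
    exact U.add_mem (hu _) (hv _)
  zero_mem' := by
    intro m
    rw [MvPolynomial.coeff_zero]
    exact U.zero_mem
  neg_mem' := by
    intro u hu m
    rw [MvPolynomial.coeff_neg]
    exact U.neg_mem (hu _)

theorem C_mem_MU {R : Type} [CommRing R] {U : Subring R} {n : ℕ} {x : R} (h : x ∈ U) :
    (MvPolynomial.C x : Poly n R) ∈ MU U n := by
  classical
  intro m
  rw [MvPolynomial.coeff_C]
  split_ifs
  · exact h
  · exact U.zero_mem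

theorem X_mem_MU {R : Type} [CommRing R] {U : Subring R} {n : ℕ} (i : Fin (n + 1)) :
    (MvPolynomial.X i : Poly n R) ∈ MU U n := by
  classical
  intro m
  rw [MvPolynomial.coeff_X]
  split_ifs
  · exact U.one_mem
  · exact U.zero_mem

/-- from `R` to `R[σ]` -/
theorem Fr_poly {R : Type} [CommRing R] {U : Subring R} {F : R →+* R} {p : ℕ} (hp : p.Prime)
    (h : ∀ x ∈ U, ∃ y ∈ U, F x = x ^ p + (p : R) * y) (x : R[X]) (hx : x ∈ PU U) :
    Fr (PU U) ((Polynomial.expand R p).toRingHom.comp (Polynomial.mapRingHom F)) p x := by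
  rw [x.as_sum_range_C_mul_X_pow]
  refine Fr.sum hp _ _ fun k _ => ?_
  refine Fr.mul ?_ (Fr.pow (Fr.of_eq X_mem_PU ?_) k)
  · obtain ⟨y, hy, e⟩ := h _ (hx k)
    refine ⟨C_mem_PU (hx k), Polynomial.C y, C_mem_PU hy, ?_⟩
    have h1 : ((Polynomial.expand R p).toRingHom.comp (Polynomial.mapRingHom F))
        (Polynomial.C (x.coeff k)) = Polynomial.C (F (x.coeff k)) := by
      change Polynomial.expand R p (Polynomial.map F (Polynomial.C (x.coeff k))) = _
      rw [Polynomial.map_C, Polynomial.expand_C]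
    rw [h1, e, map_add, map_pow, map_mul, map_natCast]
  · change Polynomial.expand R p (Polynomial.map F Polynomial.X) = _
    rw [Polynomial.map_X, Polynomial.expand_X]

/-- from `R` to `R[z]` -/
theorem Fr_mv {R : Type} [CommRing R] {U : Subring R} {F : R →+* R} {p : ℕ} (hp : p.Prime)
    (h : ∀ x ∈ U, ∃ y ∈ U, F x = x ^ p + (p : R) * y) (n : ℕ) (g : Poly n R)
    (hg : g ∈ MU U n) :
    Fr (MU U n) ((MvPolynomial.expand p).toRingHom.comp (MvPolynomial.map F)) p g := by
  rw [g.as_sum]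
  refine Fr.sum hp _ _ fun m _ => ?_
  rw [MvPolynomial.monomial_eq, Finsupp.prod_fintype _ _ (fun i => pow_zero _)]
  refine Fr.mul ?_ ?_
  · obtain ⟨y, hy, e⟩ := h _ (hg m)
    refine ⟨C_mem_MU (hg m), MvPolynomial.C y, C_mem_MU hy, ?_⟩
    have h1 : ((MvPolynomial.expand p).toRingHom.comp (MvPolynomial.map F))
        (MvPolynomial.C (MvPolynomial.coeff m g) : Poly n R) =
        MvPolynomial.C (F (MvPolynomial.coeff m g)) := by
      change MvPolynomial.expand p (MvPolynomial.map F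
        (MvPolynomial.C (MvPolynomial.coeff m g))) = _
      rw [MvPolynomial.map_C, MvPolynomial.expand_C]
    rw [h1, e, map_add, map_pow, map_mul, map_natCast]
  · have hprod : ∀ s : Finset (Fin (n + 1)),
        Fr (MU U n) ((MvPolynomial.expand p).toRingHom.comp (MvPolynomial.map F)) p
          (∏ i ∈ s, (MvPolynomial.X i : Poly n R) ^ m i) := by
      classical
      intro s
      induction s using Finset.induction_on with
      | empty => rw [Finset.prod_empty]; exact Fr.one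
      | insert i s hi ih =>
        rw [Finset.prod_insert hi]
        refine Fr.mul (Fr.pow (Fr.of_eq (X_mem_MU i) ?_) _) ih
        change MvPolynomial.expand p (MvPolynomial.map F (MvPolynomial.X i)) = _
        rw [MvPolynomial.map_X, MvPolynomial.expand_X]
    exact hprod Finset.univ

/-! ### degree in `σ` -/

section
variable {R : Type} [CommRing R] {n : ℕ}

/-- all terms `σ ^ k z ^ b` satisfy `D k + c ≤ |b|` -/
def QD (D c : ℕ) (g : Poly n R[X]) : Prop :=
  ∀ b k, (MvPolynomial.coeff b g).coeff k ≠ 0 → D * k + c ≤ b.degree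

theorem QD.zero (D c : ℕ) : QD D c (0 : Poly n R[X]) := by
  intro b k h
  rw [MvPolynomial.coeff_zero, Polynomial.coeff_zero] at h
  exact absurd rfl h

theorem QD.add {D c : ℕ} {g h : Poly n R[X]} (hg : QD D c g) (hh : QD D c h) :
    QD D c (g + h) := by
  intro b k hb
  rw [MvPolynomial.coeff_add, Polynomial.coeff_add] at hb
  by_cases h0 : (MvPolynomial.coeff b g).coeff k = 0
  · rw [h0, zero_add] at hb
    exact hh b k hb
  · exact hg b k h0

theorem QD.neg {D c : ℕ} {g : Poly n R[X]} (hg : QD D c g) : QD D c (-g) := by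
  intro b k hb
  rw [MvPolynomial.coeff_neg, Polynomial.coeff_neg] at hb
  exact hg b k (neg_ne_zero.1 hb)

theorem QD.sub {D c : ℕ} {g h : Poly n R[X]} (hg : QD D c g) (hh : QD D c h) :
    QD D c (g - h) := by
  rw [sub_eq_add_neg]
  exact hg.add hh.neg

theorem QD.mul {D c c' : ℕ} {g h : Poly n R[X]} (hg : QD D c g) (hh : QD D c' h) :
    QD D (c + c') (g * h) := by
  classical
  intro b k hb
  rw [MvPolynomial.coeff_mul, Polynomial.finsetSum_coeff] at hb
  obtain ⟨x, hx, hx0⟩ := Finset.exists_ne_zero_of_sum_ne_zero hb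
  rw [Polynomial.coeff_mul] at hx0
  obtain ⟨y, hy, hy0⟩ := Finset.exists_ne_zero_of_sum_ne_zero hx0
  have h1 := hg _ _ (left_ne_zero_of_mul hy0)
  have h2 := hh _ _ (right_ne_zero_of_mul hy0)
  rw [Finset.HasAntidiagonal.mem_antidiagonal] at hx hy
  rw [← hx, map_add, ← hy]
  have : D * (y.1 + y.2) = D * y.1 + D * y.2 := by ring
  omega

theorem QD.one (D : ℕ) : QD D 0 (1 : Poly n R[X]) := by
  classical
  intro b k hb
  rw [MvPolynomial.coeff_one] at hb
  split_ifs at hb with h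
  · rw [Polynomial.coeff_one] at hb
    split_ifs at hb with h'
    · rw [h', mul_zero]
      omega
    · exact absurd rfl hb
  · rw [Polynomial.coeff_zero] at hb
    exact absurd rfl hb

theorem QD.pow {D : ℕ} {g : Poly n R[X]} (hg : QD D 0 g) (k : ℕ) : QD D 0 (g ^ k) := by
  induction k with
  | zero => rw [pow_zero]; exact QD.one D
  | succ k ih => rw [pow_succ]; exact ih.mul hg

theorem QD.smulC {D c : ℕ} {g : Poly n R[X]} (hg : QD D c g) (r : R) :
    QD D c (MvPolynomial.C (Polynomial.C r) * g) := by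
  intro b k hb
  rw [MvPolynomial.coeff_C_mul, Polynomial.coeff_C_mul] at hb
  exact hg b k (right_ne_zero_of_mul hb)

theorem QD.monomial (D : ℕ) (a : Fin (n + 1) →₀ ℕ) :
    QD D a.degree (MvPolynomial.monomial a 1 : Poly n R[X]) := by
  classical
  intro b k hb
  rw [MvPolynomial.coeff_monomial] at hb
  split_ifs at hb with h
  · rw [Polynomial.coeff_one] at hb
    split_ifs at hb with h'
    · rw [h', mul_zero, zero_add, h]
    · exact absurd rfl hb
  · rw [Polynomial.coeff_zero] at hb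
    exact absurd rfl hb

/-- a homogeneous polynomial of degree `m` with coefficients of degree `≤ d`, `D d ≤ m` -/
theorem QD.of_hom {D m d : ℕ} {g : Poly n R[X]} (hg : g.IsHomogeneous m)
    (hd : ∀ b, (MvPolynomial.coeff b g).natDegree ≤ d) (h : D * d ≤ m) : QD D 0 g := by
  intro b k hb
  have h1 : k ≤ d := (Polynomial.le_natDegree_of_ne_zero hb).trans (hd b)
  have h2 : MvPolynomial.coeff b g ≠ 0 := by
    intro h0
    rw [h0, Polynomial.coeff_zero] at hb
    exact hb rfl
  have h3 : b.degree = m := by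
    have := hg h2
    rwa [Finsupp.degree_eq_weight_one]
  rw [h3, add_zero]
  exact (Nat.mul_le_mul_left D h1).trans h

/-- the same after `psi` -/
def QP (D p c : ℕ) (g : Poly n R[X]) : Prop :=
  ∀ b k, (MvPolynomial.coeff b g).coeff k ≠ 0 → D * k + c ≤ p * (b.degree + (n + 1))

theorem QP.psi {D p c : ℕ} (hp : 0 < p) {g : Poly n R[X]} (hg : QD D c g) :
    QP D p (c + (n + 1)) (psi p g) := by
  intro b k hb
  rw [RHB.coeff_psi hp] at hb
  have h1 := hg _ k hb
  have h2 := RHB.degree_upp (n := n) hp b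
  omega

theorem QP.smul {D p c : ℕ} (r : R) {g : Poly n R[X]} (hg : QP D p c g) :
    QP D p c (Polynomial.C r • g) := by
  intro b k hb
  rw [MvPolynomial.coeff_smul, smul_eq_mul, Polynomial.coeff_C_mul] at hb
  exact hg b k (right_ne_zero_of_mul hb)

theorem QP.sum {D p c : ℕ} {ι : Type} (s : Finset ι) (f : ι → Poly n R[X])
    (h : ∀ i ∈ s, QP D p c (f i)) : QP D p c (∑ i ∈ s, f i) := by
  classical
  intro b k hb
  rw [MvPolynomial.coeff_sum, Polynomial.finsetSum_coeff] at hb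
  obtain ⟨i, hi, hi0⟩ := Finset.exists_ne_zero_of_sum_ne_zero hb
  exact h i hi b k hi0

theorem Sg_hom (n : ℕ) (S : Type) [CommRing S] : (Sg n S).IsHomogeneous 1 :=
  MvPolynomial.IsHomogeneous.sum _ _ _ fun i _ => MvPolynomial.isHomogeneous_X S i

theorem map_Sg {S S' : Type} [CommRing S] [CommRing S'] (f : S →+* S') (n : ℕ) :
    MvPolynomial.map f (Sg n S) = Sg n S' := by
  rw [Sg, Sg, map_sum]
  exact Finset.sum_congr rfl fun i _ => MvPolynomial.map_X f i

theorem coeff_expand {S : Type} [CommRing S] {p : ℕ} (g : Poly n S)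
    (b : Fin (n + 1) →₀ ℕ) : ∃ s : Finset (Fin (n + 1) →₀ ℕ),
      MvPolynomial.coeff b (MvPolynomial.expand p g) =
        ∑ m ∈ s, if p • m = b then MvPolynomial.coeff m g else 0 := by
  classical
  refine ⟨g.support, ?_⟩
  conv_lhs => rw [g.as_sum, map_sum, MvPolynomial.coeff_sum]
  refine Finset.sum_congr rfl fun m _ => ?_
  have e1 : MvPolynomial.expand p (MvPolynomial.monomial m (MvPolynomial.coeff m g) :
      Poly n S) = MvPolynomial.monomial (p • m) (MvPolynomial.coeff m g) := by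
    rw [MvPolynomial.expand_monomial, MvPolynomial.monomial_eq,
      Finsupp.prod_fintype _ _ (by simp)]
  rw [e1, MvPolynomial.coeff_monomial]

/-- generic form of `P` -/
noncomputable def gP (D : ℕ) (X1 : Poly n R) : Poly n R[X] :=
  MvPolynomial.C Polynomial.X * Sg n R[X] ^ D - MvPolynomial.map Polynomial.C X1

/-- generic form of the Frobenius of `R[σ]` -/
noncomputable def gF (p : ℕ) (F : R →+* R) : R[X] →+* R[X] :=
  (Polynomial.expand R p).toRingHom.comp (Polynomial.mapRingHom F)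

/-- generic form of `P ^ φ (z ^ p)` -/
noncomputable def gX (p : ℕ) (F : R →+* R) (P : Poly n R[X]) : Poly n R[X] :=
  MvPolynomial.expand p (MvPolynomial.map (gF p F) P)

theorem gP_hom (D : ℕ) (X1 : Poly n R) (hX : X1.IsHomogeneous D) :
    (gP D X1).IsHomogeneous D := by
  refine MvPolynomial.IsHomogeneous.sub ?_ (hX.map _)
  have h1 := (MvPolynomial.isHomogeneous_C (Fin (n + 1)) (Polynomial.X : R[X])).mul
    ((Sg_hom n R[X]).pow D)
  rwa [zero_add, one_mul] at h1

theorem gP_deg (D : ℕ) (X1 : Poly n R) (b : Fin (n + 1) →₀ ℕ) :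
    (MvPolynomial.coeff b (gP D X1)).natDegree ≤ 1 := by
  have h1 : Sg n R[X] ^ D = MvPolynomial.map (Polynomial.C (R := R)) (Sg n R ^ D) := by
    rw [map_pow, map_Sg]
  rw [gP, h1, MvPolynomial.coeff_sub, MvPolynomial.coeff_C_mul, MvPolynomial.coeff_map,
    MvPolynomial.coeff_map]
  refine (Polynomial.natDegree_sub_le _ _).trans (max_le ?_ ?_)
  · refine Polynomial.natDegree_mul_le.trans ?_
    rw [Polynomial.natDegree_C, add_zero]
    exact Polynomial.natDegree_X_le
  · rw [Polynomial.natDegree_C]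
    omega

theorem gX_hom (p D : ℕ) (F : R →+* R) (P : Poly n R[X]) (hP : P.IsHomogeneous D) :
    (gX p F P).IsHomogeneous (p * D) := expand_isHomogeneous (hP.map _) p

theorem natDegree_gF (p : ℕ) (F : R →+* R) (x : R[X]) :
    (gF p F x).natDegree ≤ p * x.natDegree := by
  change (Polynomial.expand R p (Polynomial.map F x)).natDegree ≤ _
  rw [Polynomial.natDegree_expand, mul_comm]
  exact Nat.mul_le_mul_left p Polynomial.natDegree_map_le

theorem gX_QD (p D : ℕ) (F : R →+* R) (P : Poly n R[X]) (hP : P.IsHomogeneous D)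
    (hd : ∀ b, (MvPolynomial.coeff b P).natDegree ≤ 1) : QD D 0 (gX p F P) := by
  classical
  refine QD.of_hom (d := p) (gX_hom p D F P hP) (fun b => ?_) (by rw [mul_comm])
  obtain ⟨s, hs⟩ := coeff_expand (p := p) (MvPolynomial.map (gF p F) P) b
  rw [gX, hs]
  refine Polynomial.natDegree_sum_le_of_forall_le _ _ fun m _ => ?_
  split_ifs
  · rw [MvPolynomial.coeff_map]
    refine (natDegree_gF p F _).trans ?_
    calc p * _ ≤ p * 1 := Nat.mul_le_mul_left p (hd m)
      _ = p := mul_one p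
  · rw [Polynomial.natDegree_zero]
    omega

theorem gEL_hom (p D : ℕ) (F : R →+* R) (c : R[X]) (P : Poly n R[X])
    (hP : P.IsHomogeneous D) :
    (MvPolynomial.C c * (P ^ p - gX p F P)).IsHomogeneous (p * D) := by
  have h1 : (P ^ p).IsHomogeneous (p * D) := by
    have := hP.pow p
    rwa [mul_comm] at this
  have h2 := (MvPolynomial.isHomogeneous_C (Fin (n + 1)) c).mul (h1.sub (gX_hom p D F P hP))
  rwa [zero_add] at h2

theorem gEL_QD (p D : ℕ) (F : R →+* R) (c : R) (P : Poly n R[X]) (hP : P.IsHomogeneous D)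
    (hd : ∀ b, (MvPolynomial.coeff b P).natDegree ≤ 1) :
    QD D 0 (MvPolynomial.C (Polynomial.C c) * (P ^ p - gX p F P)) :=
  QD.smulC (((QD.of_hom hP hd (by rw [mul_one])).pow p).sub (gX_QD p D F P hP hd)) _

/-- the equation -/
theorem gEL_eq (p : ℕ) (F : R →+* R) (c : R[X]) (P : Poly n R[X])
    (hc : (MvPolynomial.C c : Poly n R[X]) * (p : Poly n R[X]) = 1) :
    P ^ p = gX p F P + (p : Poly n R[X]) * (MvPolynomial.C c * (P ^ p - gX p F P)) := by
  linear_combination (-(P ^ p - gX p F P)) * hc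

/-- integrality -/
theorem gEL_mem {p : ℕ} (hp : p.Prime) (F : R →+* R) (c : R[X]) (P : Poly n R[X])
    (hc : (MvPolynomial.C c : Poly n R[X]) * (p : Poly n R[X]) = 1) {U : Subring R}
    (h : ∀ x ∈ U, ∃ y ∈ U, F x = x ^ p + (p : R) * y) (hP : P ∈ MU (PU U) n) :
    MvPolynomial.C c * (P ^ p - gX p F P) ∈ MU (PU U) n := by
  have hfr3 : ∀ x ∈ PU U, ∃ y ∈ PU U, gF p F x = x ^ p + (p : R[X]) * y := fun x hx =>
    (Fr_poly hp h x hx).2
  obtain ⟨_, y, hy, e⟩ := Fr_mv hp hfr3 n P hP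
  have e' : gX p F P = P ^ p + (p : Poly n R[X]) * y := e
  have e2 : MvPolynomial.C c * (P ^ p - gX p F P) = -y := by
    rw [e']
    linear_combination (-y) * hc
  rw [e2]
  exact (MU (PU U) n).neg_mem hy

end

/-! ### the polynomial `P` -/

section
variable {n : ℕ} {E : Type} [Field E] (K : Corner n E)

theorem P3_eq : K.P3 = gP K.D K.X1 := rfl

theorem ex_eq (φ : E →+* E) (p : ℕ) :
    MvPolynomial.expand p (MvPolynomial.map (phB3 φ p) K.P3) = gX p (phB2 φ p) K.P3 := rfl

theorem EL3_eq (φ : E →+* E) (p : ℕ) :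
    K.EL3 φ p = MvPolynomial.C (Polynomial.C (Polynomial.C (Polynomial.C ((p : E)⁻¹)))) *
      (K.P3 ^ p - gX p (phB2 φ p) K.P3) := rfl

theorem P3_hom (hX : K.X1.IsHomogeneous K.D) : K.P3.IsHomogeneous K.D := by
  rw [P3_eq]
  exact gP_hom _ _ hX

theorem P3_deg (b : Fin (n + 1) →₀ ℕ) : (MvPolynomial.coeff b K.P3).natDegree ≤ 1 := by
  rw [P3_eq]
  exact gP_deg _ _ b

theorem P3_QD (hX : K.X1.IsHomogeneous K.D) : QD K.D 0 K.P3 :=
  QD.of_hom (P3_hom K hX) (P3_deg K) (by rw [mul_one])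

theorem EL3_QD (hX : K.X1.IsHomogeneous K.D) (φ : E →+* E) (p : ℕ) :
    QD K.D 0 (K.EL3 φ p) := by
  rw [EL3_eq]
  exact gEL_QD p K.D _ _ _ (P3_hom K hX) (P3_deg K)

theorem EL3_hom (hX : K.X1.IsHomogeneous K.D) (φ : E →+* E) (p : ℕ) :
    (K.EL3 φ p).IsHomogeneous (p * K.D) := by
  rw [EL3_eq]
  exact gEL_hom p K.D _ _ _ (P3_hom K hX)

theorem gP_mem {R : Type} [CommRing R] {U : Subring R} (D : ℕ) (X1 : Poly n R)
    (hX : ∀ b, MvPolynomial.coeff b X1 ∈ U) : gP D X1 ∈ MU (PU U) n := by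
  refine (MU (PU U) n).sub_mem ((MU (PU U) n).mul_mem (C_mem_MU X_mem_PU)
    ((MU (PU U) n).pow_mem ?_ _)) ?_
  · exact (MU (PU U) n).sum_mem fun i _ => X_mem_MU i
  · intro b
    rw [MvPolynomial.coeff_map]
    exact C_mem_PU (hX b)

theorem P3_mem {O : Subring E} (hX : ∀ b, MvPolynomial.coeff b K.X1 ∈ O2 O) :
    K.P3 ∈ MU (PU (O2 O)) n := by
  rw [P3_eq]
  exact gP_mem _ _ hX

theorem cB3_mem {O : Subring E} {x : E} (hx : x ∈ O) : cB3 E x ∈ PU (O2 O) := by
  refine C_mem_PU ?_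
  intro u w
  change ((Polynomial.C (Polynomial.C x) : B2 E).coeff u).coeff w ∈ O
  rw [Polynomial.coeff_C]
  split_ifs
  · rw [Polynomial.coeff_C]
    split_ifs
    · exact hx
    · exact O.zero_mem
  · rw [Polynomial.coeff_zero]
    exact O.zero_mem

end

end F_RHO

open F_RHO

theorem rho_thm (h1 : FROStmt) (h2 : Corner.X1HStmt) : Corner.RHOStmt := by
  intro X E _ _ A hA n K J
  obtain ⟨hX, hX2⟩ := h2 X E A hA n K
  refine (hX2.and (Idx.Ev.large (X := X) (n + 1 + J))).mono fun i hi => ?_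
  obtain ⟨hi1, hi2⟩ := hi
  obtain ⟨_, hfr, _, _⟩ := h1 X E A hA i
  have hp := X.hp i
  have hpE : (X.p i : E) ≠ 0 := Nat.cast_ne_zero.2 hp.ne_zero
  have hpC : (MvPolynomial.C (Polynomial.C (Polynomial.C (Polynomial.C
      ((X.p i : E)⁻¹)))) : Poly n (B3 E)) * ((X.p i : ℕ) : Poly n (B3 E)) = 1 := by
    have e1 : ((X.p i : ℕ) : Poly n (B3 E)) = MvPolynomial.C (Polynomial.C (Polynomial.C
        (Polynomial.C (X.p i : E)))) := by
      rw [map_natCast, map_natCast, map_natCast, map_natCast]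
    rw [e1, ← map_mul, ← map_mul, ← map_mul, ← map_mul, inv_mul_cancel₀ hpE, map_one, map_one,
      map_one, map_one]
  refine ⟨?_, ?_⟩
  · rw [ex_eq, EL3_eq]
    exact gEL_eq (X.p i) (phB2 (A.phi i) (X.p i)) _ K.P3 hpC
  -- integrality
  have hP3 : K.P3 ∈ MU (PU (O2 (A.O i))) n := P3_mem K hi1
  have hEL : K.EL3 (A.phi i) (X.p i) ∈ MU (PU (O2 (A.O i))) n := by
    rw [EL3_eq]
    exact gEL_mem hp _ _ _ hpC hfr hP3
  intro a ha hla
  have ham : a.degree + (n + 1) = K.D * K.lv a := (Nat.mul_div_cancel' ha).symm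
  have hm1 : 1 ≤ K.lv a := RHB.m_pos ham
  have hγ : ∀ j, j < J → cB3 E ((X.p i : E) ^ j / (j.factorial : E)) ∈ PU (O2 (A.O i)) := by
    intro j hj
    refine cB3_mem ?_
    rw [div_eq_mul_inv]
    refine (A.O i).mul_mem ((A.O i).pow_mem (natCast_mem _ _) _) ?_
    refine hA.pol_O i 0 _ (hA.pol_inv i _ ?_)
    intro hd
    have := (Nat.Prime.dvd_factorial hp).1 hd
    omega
  have hF : Filt (fun _ : ℕ => (PU (O2 (A.O i))).toAddSubgroup) :=
    ⟨fun _ _ _ => le_rfl, (PU (O2 (A.O i))).one_mem,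
      fun _ _ x y hx hy => (PU (O2 (A.O i))).mul_mem hx hy⟩
  have h4 := RHB.part4 (n := n) (fun _ : ℕ => (PU (O2 (A.O i))).toAddSubgroup) (X.p i) K.D J
    (K.lv a) 0 (fun j => cB3 E ((X.p i : E) ^ j / (j.factorial : E))) K.P3
    (K.EL3 (A.phi i) (X.p i)) (MvPolynomial.monomial a 1) hp.two_le K.hD (P3_hom K hX)
    (EL3_hom K hX _ _) hF hγ hP3 hEL hm1 (by omega) (RHB.wt_monomial ham 1)
    (fun b => by
      classical
      rw [MvPolynomial.coeff_monomial]
      split_ifs
      · exact (PU (O2 (A.O i))).one_mem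
      · exact (PU (O2 (A.O i))).zero_mem)
  refine ⟨fun b hb => ?_, fun b k => h4.1 b k⟩
  obtain ⟨t, ht1, ht2, ht3⟩ := h4.2 b hb
  have hlb : K.lv b = t := by
    rw [Corner.lv, ht3, Nat.mul_div_cancel_left _ K.hD]
  refine ⟨⟨t, ht3⟩, by rw [hlb]; exact ht2, fun k hk => ?_⟩
  -- degrees
  have ht : (K.lv a + X.p i - 1) / X.p i = 1 := by
    have h5 := RHB.t_pos (m := K.lv a) hp.two_le hm1
    have h6 : (K.lv a + X.p i - 1) / X.p i < 2 := by
      rw [Nat.div_lt_iff_lt_mul hp.pos]; omega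
    omega
  have hQ : QP K.D (X.p i) (a.degree + (n + 1)) (K.rho3 (A.phi i) (X.p i) J a) := by
    rw [Corner.rho3, RHB.rho0_monomial, if_pos ha, one_smul]
    have e1 : (((FD.K ((a.degree + (n + 1)) / K.D)
        (((a.degree + (n + 1)) / K.D + X.p i - 1) / X.p i) : ℕ) : B3 E)) =
        Polynomial.C (((FD.K ((a.degree + (n + 1)) / K.D)
        (((a.degree + (n + 1)) / K.D + X.p i - 1) / X.p i) : ℕ) : B2 E)) := by
      rw [map_natCast]
    rw [e1]
    refine QP.smul _ (QP.sum _ _ fun j _ => ?_)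
    have e2 : ((-1) ^ j * cB3 E ((X.p i : E) ^ j / (j.factorial : E)) : B3 E) =
        Polynomial.C ((-1) ^ j * (Polynomial.C (Polynomial.C
          ((X.p i : E) ^ j / (j.factorial : E))))) := by
      rw [map_mul, map_pow, map_neg, map_one]
      rfl
    rw [e2]
    refine QP.smul _ (QP.psi hp.pos ?_)
    have h7 := ((QD.monomial (R := B2 E) K.D a).mul ((P3_QD K hX).pow
      (X.p i * (((a.degree + (n + 1)) / K.D + X.p i - 1) / X.p i) -
        (a.degree + (n + 1)) / K.D))).mul ((EL3_QD K hX (A.phi i) (X.p i)).pow j)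
    rw [add_zero, add_zero] at h7
    exact h7
  have h8 := hQ b k hk
  rw [ham, ht3, hlb.symm] at h8
  have h9 : K.D * (k + K.lv a) ≤ K.D * (X.p i * K.lv b) := by
    calc K.D * (k + K.lv a) = K.D * k + K.D * K.lv a := by ring
      _ ≤ X.p i * (K.D * K.lv b) := h8
      _ = K.D * (X.p i * K.lv b) := by ring
  exact Nat.le_of_mul_le_mul_left h9 K.hD

end Pool.CUBE
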